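import Mathlib

/-!
# The associated Lie ring of a group

For a group `G` with lower central series `γ₁ = G ⊇ γ₂ ⊇ …` we construct the associated Lie ring
`𝓛(G) = ⨁_{i ≥ 1} γ_i / γ_{i+1}`, whose bracket of homogeneous elements is induced by the group
commutator.  Mathlib's `(⊤ : Subgroup G).lowerCentralSeries n` is `γ_{n+1}(G)`, so that the direct
sum below is indexed by `n = i - 1 : ℕ`.
-/

namespace BurnLie

open Subgroup
open scoped commutatorElement

variable {G : Type*} [Group G]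

/-- `lcs G n = γ_{n+1}(G)`, Mathlib's lower central series of `G`. -/
abbrev lcs (G : Type*) [Group G] (n : ℕ) : Subgroup G := (⊤ : Subgroup G).lowerCentralSeries n

instance lcs_normal (n : ℕ) : (lcs G n).Normal := inferInstance

theorem lcs_anti {m n : ℕ} (h : m ≤ n) : lcs G n ≤ lcs G m :=
  (⊤ : Subgroup G).lowerCentralSeries_antitone h

/-- The Hall–Witt identity in the form used by Mathlib. -/
theorem hall_witt (x y z : G) :
    ⁅z, ⁅x, y⁆⁆ =
      x * (z * ⁅y, ⁅z⁻¹, x⁻¹⁆⁆⁻¹ * z⁻¹ * (y * ⁅x⁻¹, ⁅y⁻¹, z⁆⁆⁻¹ * y⁻¹)) * x⁻¹ := by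
  simp only [commutatorElement_def]
  group

theorem conj_mem' {N : Subgroup G} [hN : N.Normal] (g : G) {n : G} (h : n ∈ N) :
    g * n * g⁻¹ ∈ N := hN.conj_mem n h g

/-- `[γ_{m+1}, γ_{n+1}] ≤ γ_{m+n+2}`. -/
theorem lcs_comm (m n : ℕ) : ⁅lcs G m, lcs G n⁆ ≤ lcs G (m + n + 1) := by
  induction n generalizing m with
  | zero => exact le_of_eq (by rw [show m + 0 + 1 = m + 1 from rfl, lcs, lcs, lcs,
      Subgroup.lowerCentralSeries_succ, Subgroup.lowerCentralSeries_zero])
  | succ n ih =>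
    rw [commutator_le]
    intro z hz w hw
    rw [lcs, Subgroup.mem_lowerCentralSeries_succ_iff] at hw
    induction hw using closure_induction with
    | mem w hw =>
      obtain ⟨x, hx, y, -, rfl⟩ := hw
      rw [hall_witt]
      have h1 : ⁅y, ⁅z⁻¹, x⁻¹⁆⁆ ∈ lcs G (m + (n + 1) + 1) := by
        have h2 : ⁅z⁻¹, x⁻¹⁆ ∈ lcs G (m + n + 1) :=
          ih m (commutator_mem_commutator (inv_mem hz) (inv_mem hx))
        have h3 : ⁅⁅z⁻¹, x⁻¹⁆, y⁆ ∈ lcs G (m + n + 1 + 1) :=
          commutator_mem_commutator h2 (mem_top y)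
        rw [← commutatorElement_inv]
        exact inv_mem h3
      have h4 : ⁅x⁻¹, ⁅y⁻¹, z⁆⁆ ∈ lcs G (m + (n + 1) + 1) := by
        have h2 : ⁅y⁻¹, z⁆ ∈ lcs G (m + 1) := by
          rw [← commutatorElement_inv]
          exact inv_mem (commutator_mem_commutator hz (mem_top _))
        have h3 : ⁅⁅y⁻¹, z⁆, x⁻¹⁆ ∈ lcs G (m + 1 + n + 1) :=
          ih (m + 1) (commutator_mem_commutator h2 (inv_mem hx))
        rw [← commutatorElement_inv, show m + (n + 1) + 1 = m + 1 + n + 1 by ring]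
        exact inv_mem h3
      exact conj_mem' x (mul_mem (conj_mem' z (inv_mem h1)) (conj_mem' y (inv_mem h4)))
    | one => rw [commutatorElement_one_right]; exact one_mem _
    | mul w w' _ _ h h' =>
      have : ⁅z, w * w'⁆ = ⁅z, w⁆ * (w * ⁅z, w'⁆ * w⁻¹) := by
        simp only [commutatorElement_def]; group
      rw [this]
      exact mul_mem h (conj_mem' w h')
    | inv w _ h =>
      have : ⁅z, w⁻¹⁆ = w⁻¹ * ⁅z, w⁆⁻¹ * w⁻¹⁻¹ := by
        simp only [commutatorElement_def]; group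
      rw [this]
      exact conj_mem' w⁻¹ (inv_mem h)

theorem lcs_comm_mem {m n : ℕ} {g h : G} (hg : g ∈ lcs G m) (hh : h ∈ lcs G n) :
    ⁅g, h⁆ ∈ lcs G (m + n + 1) := lcs_comm m n (commutator_mem_commutator hg hh)

/-- The quotient group `γ_{n+1}(G) / γ_{n+2}(G)` (written multiplicatively). -/
abbrev QL (G : Type*) [Group G] (n : ℕ) : Type _ := lcs G n ⧸ (lcs G (n + 1)).subgroupOf (lcs G n)

theorem QL_mul_comm (n : ℕ) (a b : QL G n) : a * b = b * a := by
  obtain ⟨a, rfl⟩ := QuotientGroup.mk_surjective a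
  obtain ⟨b, rfl⟩ := QuotientGroup.mk_surjective b
  rw [← QuotientGroup.mk_mul, ← QuotientGroup.mk_mul, QuotientGroup.eq]
  rw [mem_subgroupOf]
  have h1 : ⁅(b : G)⁻¹, (a : G)⁻¹⁆ ∈ lcs G (n + n + 1) :=
    lcs_comm_mem (inv_mem b.2) (inv_mem a.2)
  have h2 : ⁅(b : G)⁻¹, (a : G)⁻¹⁆ ∈ lcs G (n + 1) := lcs_anti (by omega) h1
  have h3 : (((a * b)⁻¹ * (b * a) : lcs G n) : G) = ⁅(b : G)⁻¹, (a : G)⁻¹⁆ := by
    simp only [commutatorElement_def, Subgroup.coe_mul, Subgroup.coe_inv]; group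
  rw [h3]
  exact h2

/-- The quotients of the lower central series are commutative. -/
instance instCommGroupQL (n : ℕ) : CommGroup (QL G n) where
  toGroup := inferInstance
  mul_comm := QL_mul_comm n

/-- The degree `n + 1` component `γ_{n+1}(G) / γ_{n+2}(G)` of the associated Lie ring, written
additively. -/
def Grd (G : Type*) [Group G] (n : ℕ) : Type _ := Additive (QL G n)

instance instGrd (n : ℕ) : AddCommGroup (Grd G n) :=
  (inferInstance : AddCommGroup (Additive (QL G n)))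

/-- The class of an element of `γ_{n+1}(G)`. -/
def grMk (n : ℕ) (g : lcs G n) : Grd G n := Additive.ofMul (QuotientGroup.mk g)

theorem grMk_surj (n : ℕ) (x : Grd G n) : ∃ g : lcs G n, grMk n g = x :=
  QuotientGroup.mk_surjective (Additive.toMul x)

theorem grMk_mul (n : ℕ) (g h : lcs G n) : grMk n (g * h) = grMk n g + grMk n h := rfl

theorem grMk_inv (n : ℕ) (g : lcs G n) : grMk n g⁻¹ = - grMk n g := rfl

theorem grMk_one (n : ℕ) : grMk n (1 : lcs G n) = 0 := rfl

theorem grMk_eq (n : ℕ) (g h : lcs G n) :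
    grMk n g = grMk n h ↔ (g : G)⁻¹ * (h : G) ∈ lcs G (n + 1) := by
  change (QuotientGroup.mk g : QL G n) = QuotientGroup.mk h ↔ _
  rw [QuotientGroup.eq, mem_subgroupOf]
  rfl

/-- The commutator of elements of `γ_{m+1}` and `γ_{n+1}`, as an element of `γ_{m+n+2}`. -/
def brElt (m n : ℕ) (g : lcs G m) (h : lcs G n) : lcs G (m + n + 1) :=
  ⟨⁅(g : G), (h : G)⁆, lcs_comm_mem g.2 h.2⟩

theorem brElt_mul_right (m n : ℕ) (g : lcs G m) (h h' : lcs G n) :
    grMk (m + n + 1) (brElt m n g (h * h')) =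
      grMk (m + n + 1) (brElt m n g h) + grMk (m + n + 1) (brElt m n g h') := by
  rw [← grMk_mul, grMk_eq]
  have h1 : ⁅(h : G), ⁅(g : G), (h' : G)⁆⁆ ∈ lcs G (n + (m + n + 1) + 1) :=
    lcs_comm_mem h.2 (lcs_comm_mem g.2 h'.2)
  have h2 : ⁅(h : G), ⁅(g : G), (h' : G)⁆⁆ ∈ lcs G (m + n + 1 + 1) := lcs_anti (by omega) h1
  have h3 := conj_mem' ⁅(g : G), (h' : G)⁆⁻¹ (inv_mem h2)
  convert h3 using 1
  simp only [brElt, commutatorElement_def, Subgroup.coe_mul]
  group

theorem brElt_mul_left (m n : ℕ) (g g' : lcs G m) (h : lcs G n) :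
    grMk (m + n + 1) (brElt m n (g * g') h) =
      grMk (m + n + 1) (brElt m n g h) + grMk (m + n + 1) (brElt m n g' h) := by
  rw [add_comm (grMk _ _), ← grMk_mul, grMk_eq]
  have h1 : ⁅(g : G), ⁅(g' : G), (h : G)⁆⁆ ∈ lcs G (m + (m + n + 1) + 1) :=
    lcs_comm_mem g.2 (lcs_comm_mem g'.2 h.2)
  have h2 : ⁅(g : G), ⁅(g' : G), (h : G)⁆⁆ ∈ lcs G (m + n + 1 + 1) := lcs_anti (by omega) h1
  have h3 := conj_mem' (⁅(g : G), (h : G)⁆⁻¹ * ⁅(g' : G), (h : G)⁆⁻¹) (inv_mem h2)
  convert h3 using 1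
  simp only [brElt, commutatorElement_def, Subgroup.coe_mul]
  group

theorem brElt_right_mem (m n : ℕ) (g : lcs G m) (h : lcs G n)
    (hh : (h : G) ∈ lcs G (n + 1)) : grMk (m + n + 1) (brElt m n g h) = 0 := by
  rw [← grMk_one, grMk_eq]
  have h1 := lcs_comm_mem g.2 hh
  have h2 : ⁅(g : G), (h : G)⁆ ∈ lcs G (m + n + 1 + 1) := lcs_anti (by omega) h1
  simpa [brElt] using inv_mem h2

theorem brElt_left_mem (m n : ℕ) (g : lcs G m) (h : lcs G n)
    (hg : (g : G) ∈ lcs G (m + 1)) : grMk (m + n + 1) (brElt m n g h) = 0 := by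
  rw [← grMk_one, grMk_eq]
  have h1 := lcs_comm_mem hg h.2
  have h2 : ⁅(g : G), (h : G)⁆ ∈ lcs G (m + n + 1 + 1) := lcs_anti (by omega) h1
  simpa [brElt] using inv_mem h2

/-- The class of `[g, h]` depends only on the classes of `g` and `h`. -/
theorem brElt_congr (m n : ℕ) (g g' : lcs G m) (hg : grMk m g = grMk m g')
    (h h' : lcs G n) (hh : grMk n h = grMk n h') :
    grMk (m + n + 1) (brElt m n g h) = grMk (m + n + 1) (brElt m n g' h') := by
  have e1 : g' = g * (g⁻¹ * g') := by group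
  have e2 : h' = h * (h⁻¹ * h') := by group
  rw [grMk_eq] at hg hh
  rw [e1, brElt_mul_left, brElt_left_mem m n (g⁻¹ * g') h' hg, add_zero, e2, brElt_mul_right,
    brElt_right_mem m n g (h⁻¹ * h') hh, add_zero]

theorem brElt_rel (m n : ℕ) ⦃g g' : lcs G m⦄
    (hg : QuotientGroup.leftRel ((lcs G (m + 1)).subgroupOf (lcs G m)) g g') ⦃h h' : lcs G n⦄
    (hh : QuotientGroup.leftRel ((lcs G (n + 1)).subgroupOf (lcs G n)) h h') :
    QuotientGroup.leftRel ((lcs G (m + n + 1 + 1)).subgroupOf (lcs G (m + n + 1)))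
      (brElt m n g h) (brElt m n g' h') :=
  Quotient.exact (brElt_congr m n g g' (Quotient.sound hg) h h' (Quotient.sound hh))

/-- The bracket of homogeneous elements, as a function: it sends the classes of `g ∈ γ_{m+1}` and
`h ∈ γ_{n+1}` to the class of `[g, h]` (see `grBrFun_mk`). -/
def grBrFun (m n : ℕ) (x : Grd G m) (y : Grd G n) : Grd G (m + n + 1) :=
  Additive.ofMul (Quotient.map₂ (brElt m n) (brElt_rel m n) (Additive.toMul x) (Additive.toMul y))

theorem grBrFun_mk (m n : ℕ) (g : lcs G m) (h : lcs G n) :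
    grBrFun m n (grMk m g) (grMk n h) = grMk (m + n + 1) (brElt m n g h) := rfl

theorem grBrFun_add_right (m n : ℕ) (x : Grd G m) (y y' : Grd G n) :
    grBrFun m n x (y + y') = grBrFun m n x y + grBrFun m n x y' := by
  obtain ⟨g, rfl⟩ := grMk_surj m x
  obtain ⟨h, rfl⟩ := grMk_surj n y
  obtain ⟨h', rfl⟩ := grMk_surj n y'
  rw [← grMk_mul, grBrFun_mk, grBrFun_mk, grBrFun_mk, brElt_mul_right]

theorem grBrFun_add_left (m n : ℕ) (x x' : Grd G m) (y : Grd G n) :
    grBrFun m n (x + x') y = grBrFun m n x y + grBrFun m n x' y := by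
  obtain ⟨g, rfl⟩ := grMk_surj m x
  obtain ⟨g', rfl⟩ := grMk_surj m x'
  obtain ⟨h, rfl⟩ := grMk_surj n y
  rw [← grMk_mul, grBrFun_mk, grBrFun_mk, grBrFun_mk, brElt_mul_left]

/-- The bracket of homogeneous elements, with the first argument fixed. -/
def grBr (m n : ℕ) (x : Grd G m) : Grd G n →+ Grd G (m + n + 1) :=
  AddMonoidHom.mk' (grBrFun m n x) (grBrFun_add_right m n x)

theorem grBr_mk (m n : ℕ) (g : lcs G m) (h : lcs G n) :
    grBr m n (grMk m g) (grMk n h) = grMk (m + n + 1) (brElt m n g h) := grBrFun_mk m n g h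

theorem grBr_add (m n : ℕ) (x x' : Grd G m) : grBr m n (x + x') = grBr m n x + grBr m n x' :=
  AddMonoidHom.ext fun y => grBrFun_add_left m n x x' y

/-- The associated Lie ring `𝓛(G) = ⨁_{i ≥ 1} γ_i(G) / γ_{i+1}(G)`; the summand with index
`n : ℕ` is `γ_{n+1}(G) / γ_{n+2}(G)`. -/
def AssocLie (G : Type*) [Group G] : Type _ := DirectSum ℕ (Grd G)

noncomputable instance instAddAssocLie : AddCommGroup (AssocLie G) :=
  (inferInstance : AddCommGroup (DirectSum ℕ (Grd G)))

/-- The inclusion of the homogeneous component. -/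
def ofL (n : ℕ) : Grd G n →+ AssocLie G := DirectSum.of (Grd G) n

/-- The bracket with a homogeneous element on the left. -/
noncomputable def lieHom1 (m : ℕ) (x : Grd G m) : AssocLie G →+ AssocLie G :=
  DirectSum.toAddMonoid fun n => (ofL (m + n + 1)).comp (grBr m n x)

theorem lieHom1_of (m n : ℕ) (x : Grd G m) (y : Grd G n) :
    lieHom1 m x (ofL n y) = ofL (m + n + 1) (grBr m n x y) :=
  DirectSum.toAddMonoid_of _ _ _

theorem addHom_ext' {A : Type*} [AddCommMonoid A] {f g : AssocLie G →+ A}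
    (h : ∀ (n : ℕ) (x : Grd G n), f (ofL n x) = g (ofL n x)) : f = g :=
  DirectSum.addHom_ext h

theorem lieHom1_add (m : ℕ) (x x' : Grd G m) :
    lieHom1 m (x + x') = lieHom1 m x + lieHom1 m x' := by
  apply addHom_ext'
  intro n y
  rw [AddMonoidHom.add_apply, lieHom1_of, lieHom1_of, lieHom1_of, grBr_add,
    AddMonoidHom.add_apply, map_add]

/-- The biadditive extension of the bracket of homogeneous elements. -/
noncomputable def lieHom : AssocLie G →+ AssocLie G →+ AssocLie G :=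
  DirectSum.toAddMonoid fun m => AddMonoidHom.mk' (lieHom1 m) (lieHom1_add m)

theorem lieHom_of (m n : ℕ) (x : Grd G m) (y : Grd G n) :
    lieHom (ofL m x) (ofL n y) = ofL (m + n + 1) (grBr m n x y) := by
  have h1 : (lieHom (ofL m x) : AssocLie G →+ AssocLie G) = lieHom1 m x :=
    DirectSum.toAddMonoid_of _ _ _
  rw [h1, lieHom1_of]

/-- The class, in the component of index `n`, of an element of `γ_{n+1}`. -/
noncomputable def mkL (n : ℕ) (g : lcs G n) : AssocLie G := ofL n (grMk n g)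

theorem mkL_mul (n : ℕ) (g h : lcs G n) : mkL n (g * h) = mkL n g + mkL n h := by
  unfold mkL; rw [grMk_mul, map_add]

theorem mkL_inv (n : ℕ) (g : lcs G n) : mkL n g⁻¹ = - mkL n g := by
  unfold mkL; rw [grMk_inv, map_neg]

theorem mkL_one (n : ℕ) : mkL n (1 : lcs G n) = 0 := by
  unfold mkL; rw [grMk_one, map_zero]

theorem mkL_congr {m n : ℕ} (h : m = n) {g : lcs G m} {g' : lcs G n} (hg : (g : G) = g') :
    mkL m g = mkL n g' := by
  subst h
  congr 1
  exact Subtype.ext hg

theorem mkL_conj (n : ℕ) (x : G) (g g' : lcs G n) (hg : (g' : G) = x * g * x⁻¹) :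
    mkL n g' = mkL n g := by
  refine congrArg (ofL n) ?_
  rw [eq_comm, grMk_eq, hg]
  have hx : x ∈ lcs G 0 := mem_top x
  have h1 : ⁅(g : G)⁻¹, x⁆ ∈ lcs G (n + 0 + 1) :=
    lcs_comm_mem (m := n) (n := 0) (g := (g : G)⁻¹) (h := x) (inv_mem g.2) hx
  convert h1 using 1
  simp only [commutatorElement_def]
  group

theorem lieHom_mkL (m n : ℕ) (g : lcs G m) (h : lcs G n) :
    lieHom (mkL m g) (mkL n h) = mkL (m + n + 1) ⟨⁅(g : G), (h : G)⁆, lcs_comm_mem g.2 h.2⟩ := by
  unfold mkL; rw [lieHom_of, grBr_mk]; rfl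

/-- Two additive maps out of the associated Lie ring agree if they agree on the classes. -/
theorem addHom_ext {A : Type*} [AddCommMonoid A] {f g : AssocLie G →+ A}
    (h : ∀ (n : ℕ) (x : lcs G n), f (mkL n x) = g (mkL n x)) : f = g := by
  apply DirectSum.addHom_ext
  intro n y
  obtain ⟨x, rfl⟩ := grMk_surj n y
  exact h n x

theorem ind {p : AssocLie G → Prop} (h0 : p 0) (h1 : ∀ (n : ℕ) (g : lcs G n), p (mkL n g))
    (h2 : ∀ x y, p x → p y → p (x + y)) (x : AssocLie G) : p x :=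
  DirectSum.induction_on (motive := p) x h0
    (fun n y => by obtain ⟨g, rfl⟩ := grMk_surj n y; exact h1 n g) h2

theorem lie_antisymm (x y : AssocLie G) : lieHom x y = - lieHom y x := by
  have h : (lieHom : AssocLie G →+ AssocLie G →+ AssocLie G) = - lieHom.flip := by
    apply addHom_ext
    intro m g
    apply addHom_ext
    intro n h
    rw [AddMonoidHom.neg_apply, AddMonoidHom.neg_apply, AddMonoidHom.flip_apply, lieHom_mkL,
      lieHom_mkL, ← mkL_inv]
    apply mkL_congr (by ring)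
    exact (commutatorElement_inv _ _).symm
  exact DFunLike.congr_fun (DFunLike.congr_fun h x) y

theorem lieHom_add_left (x y z : AssocLie G) :
    lieHom (x + y) z = lieHom x z + lieHom y z := by
  rw [map_add]
  exact AddMonoidHom.add_apply _ _ _

theorem lie_alt (x : AssocLie G) : lieHom x x = 0 := by
  induction x using ind with
  | h0 => rw [map_zero]
  | h1 n g =>
    rw [lieHom_mkL, ← mkL_one (n + n + 1)]
    apply mkL_congr rfl
    exact commutatorElement_self _
  | h2 x y hx hy =>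
    have h1 : lieHom (x + y) (x + y) = lieHom x x + lieHom x y + (lieHom y x + lieHom y y) := by
      rw [map_add, lieHom_add_left, lieHom_add_left]
      abel
    refine h1.trans ?_
    rw [hx, hy, lie_antisymm x y]
    abel

theorem jac_aux (m n p : ℕ) (x : lcs G m) (y : lcs G n) (z : lcs G p) :
    lieHom (mkL p z) (lieHom (mkL m x) (mkL n y)) + lieHom (mkL n y) (lieHom (mkL p z) (mkL m x))
      + lieHom (mkL m x) (lieHom (mkL n y) (mkL p z)) = 0 := by
  have e1 : lieHom (mkL n y) (lieHom (mkL p z) (mkL m x)) =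
      lieHom (mkL n y) (lieHom (mkL p z⁻¹) (mkL m x⁻¹)) := by
    simp only [mkL_inv, map_neg, AddMonoidHom.neg_apply, neg_neg]
  have e2 : lieHom (mkL m x) (lieHom (mkL n y) (mkL p z)) =
      lieHom (mkL m x⁻¹) (lieHom (mkL n y⁻¹) (mkL p z)) := by
    simp only [mkL_inv, map_neg, AddMonoidHom.neg_apply, neg_neg]
  rw [e1, e2]
  simp only [lieHom_mkL]
  have hz1 : ⁅(y : G), ⁅(z : G)⁻¹, (x : G)⁻¹⁆⁆ ∈ lcs G (m + n + p + 2) := by
    have := lcs_comm_mem y.2 (lcs_comm_mem (inv_mem z.2) (inv_mem x.2))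
    exact lcs_anti (by omega) this
  have hz2 : ⁅(x : G)⁻¹, ⁅(y : G)⁻¹, (z : G)⁆⁆ ∈ lcs G (m + n + p + 2) := by
    have := lcs_comm_mem (inv_mem x.2) (lcs_comm_mem (inv_mem y.2) z.2)
    exact lcs_anti (by omega) this
  have hz3 : ⁅(z : G), ⁅(x : G), (y : G)⁆⁆ ∈ lcs G (m + n + p + 2) := by
    have := lcs_comm_mem z.2 (lcs_comm_mem x.2 y.2)
    exact lcs_anti (by omega) this
  set A : lcs G (m + n + p + 2) := ⟨_, hz1⟩ with hA
  set B : lcs G (m + n + p + 2) := ⟨_, hz2⟩ with hB
  set C : lcs G (m + n + p + 2) := ⟨_, hz3⟩ with hC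
  suffices E : ∀ a b c : AssocLie G, a = mkL _ C → b = mkL _ A → c = mkL _ B → a + b + c = 0 by
    apply E
    · exact mkL_congr (by omega) rfl
    · exact mkL_congr (by omega) rfl
    · exact mkL_congr (by omega) rfl
  have hA' : mkL (m + n + p + 2) (⟨(z : G) * (A⁻¹ : lcs G _) * (z : G)⁻¹,
      conj_mem' _ (A⁻¹ : lcs G _).2⟩ : lcs G (m + n + p + 2)) = - mkL _ A := by
    rw [mkL_conj _ (z : G) A⁻¹ _ rfl, mkL_inv]
  have hB' : mkL (m + n + p + 2) (⟨(y : G) * (B⁻¹ : lcs G _) * (y : G)⁻¹,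
      conj_mem' _ (B⁻¹ : lcs G _).2⟩ : lcs G (m + n + p + 2)) = - mkL _ B := by
    rw [mkL_conj _ (y : G) B⁻¹ _ rfl, mkL_inv]
  have hC' : mkL (m + n + p + 2) C = - mkL _ A + - mkL _ B := by
    rw [← hA', ← hB', ← mkL_mul]
    apply mkL_conj _ (x : G)
    exact hall_witt (x : G) (y : G) (z : G)
  rintro a b c rfl rfl rfl
  rw [hC']
  abel

theorem lie_leibniz (x y z : AssocLie G) :
    lieHom x (lieHom y z) = lieHom (lieHom x y) z + lieHom y (lieHom x z) := by
  have key : ∀ (m n p : ℕ) (x : lcs G m) (y : lcs G n) (z : lcs G p),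
      lieHom (mkL m x) (lieHom (mkL n y) (mkL p z)) =
      lieHom (lieHom (mkL m x) (mkL n y)) (mkL p z) +
        lieHom (mkL n y) (lieHom (mkL m x) (mkL p z)) := by
    intro m n p x y z
    have h := jac_aux m n p x y z
    rw [lie_antisymm (lieHom (mkL m x) (mkL n y)) (mkL p z),
      lie_antisymm (mkL m x) (mkL p z), map_neg]
    rw [← sub_eq_zero, ← h]
    abel
  have h3 : (lieHom : AssocLie G →+ AssocLie G →+ AssocLie G) = lieHom := rfl
  -- extend additively in `x`
  have step1 : ∀ (n p : ℕ) (y : lcs G n) (z : lcs G p) (x : AssocLie G),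
      lieHom x (lieHom (mkL n y) (mkL p z)) =
      lieHom (lieHom x (mkL n y)) (mkL p z) +
        lieHom (mkL n y) (lieHom x (mkL p z)) := by
    intro n p y z x
    have : (lieHom.flip (lieHom (mkL n y) (mkL p z)) : AssocLie G →+ AssocLie G) =
        (lieHom.flip (mkL p z)).comp (lieHom.flip (mkL n y)) +
        (lieHom (mkL n y)).comp (lieHom.flip (mkL p z)) := by
      apply addHom_ext
      intro m x
      simpa using key m n p x y z
    simpa using DFunLike.congr_fun this x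
  have step2 : ∀ (p : ℕ) (z : lcs G p) (x y : AssocLie G),
      lieHom x (lieHom y (mkL p z)) =
      lieHom (lieHom x y) (mkL p z) + lieHom y (lieHom x (mkL p z)) := by
    intro p z x y
    have : ((lieHom x).comp (lieHom.flip (mkL p z)) : AssocLie G →+ AssocLie G) =
        (lieHom.flip (mkL p z)).comp (lieHom x) +
        (lieHom.flip (lieHom x (mkL p z))) := by
      apply addHom_ext
      intro n y
      simpa using step1 n p y z x
    simpa using DFunLike.congr_fun this y
  have : ((lieHom x).comp (lieHom y) : AssocLie G →+ AssocLie G) =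
      lieHom (lieHom x y) + (lieHom y).comp (lieHom x) := by
    apply addHom_ext
    intro p z
    simpa using step2 p z x y
  simpa using DFunLike.congr_fun this z

/-- The bracket of the associated Lie ring. -/
noncomputable def br (x y : AssocLie G) : AssocLie G := lieHom x y

theorem br_add_left (x y z : AssocLie G) : br (x + y) z = br x z + br y z := lieHom_add_left x y z

theorem br_add_right (x y z : AssocLie G) : br x (y + z) = br x y + br x z := map_add _ _ _

theorem br_self (x : AssocLie G) : br x x = 0 := lie_alt x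

theorem br_leibniz (x y z : AssocLie G) : br x (br y z) = br (br x y) z + br y (br x z) :=
  lie_leibniz x y z

/-- The associated Lie ring is a Lie ring. -/
noncomputable instance instLieRingAssocLie : LieRing (AssocLie G) where
  bracket := br
  add_lie := br_add_left
  lie_add := br_add_right
  lie_self := br_self
  leibniz_lie := br_leibniz

end BurnLie
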