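import Pool.Agent.H77R2.AssocLie

/-!
# Classes of group elements in the associated Lie ring, and functoriality
-/

namespace BurnLie

open Subgroup
open scoped commutatorElement

variable {G : Type*} [Group G]

/-- `Gam G w = γ_w(G)` (with `γ_0 = γ_1 = G`). -/
def Gam (G : Type*) [Group G] (w : ℕ) : Subgroup G := lcs G (w - 1)

instance Gam_normal (w : ℕ) : (Gam G w).Normal := lcs_normal _

theorem Gam_anti {m n : ℕ} (h : m ≤ n) : Gam G n ≤ Gam G m := lcs_anti (by omega)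

theorem Gam_zero : Gam G 0 = ⊤ := rfl
theorem Gam_one : Gam G 1 = ⊤ := rfl
theorem mem_Gam_one (g : G) : g ∈ Gam G 1 := mem_top g
theorem mem_Gam_zero (g : G) : g ∈ Gam G 0 := mem_top g

theorem Gam_comm {i j : ℕ} {g h : G} (hg : g ∈ Gam G i) (hh : h ∈ Gam G j) :
    ⁅g, h⁆ ∈ Gam G (i + j) := by
  rcases Nat.eq_zero_or_pos i with rfl | hi
  · rw [zero_add, commutatorElement_def]
    exact mul_mem (conj_mem' g hh) (inv_mem hh)
  rcases Nat.eq_zero_or_pos j with rfl | hj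
  · rw [add_zero, commutatorElement_def]
    have : g * h * g⁻¹ * h⁻¹ = g * (h * g⁻¹ * h⁻¹) := by group
    rw [this]
    exact mul_mem hg (conj_mem' h (inv_mem hg))
  have := lcs_comm_mem (m := i - 1) (n := j - 1) hg hh
  exact lcs_anti (by omega) this

theorem Gam_comm' {i j k : ℕ} {g h : G} (hg : g ∈ Gam G i) (hh : h ∈ Gam G j) (hk : k ≤ i + j) :
    ⁅g, h⁆ ∈ Gam G k := Gam_anti hk (Gam_comm hg hh)

/-- The class in degree `w` of `g`, for `g ∈ γ_w(G)` and `w ≥ 1` (and `0` if `g ∉ γ_w(G)`). -/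
noncomputable def cls (w : ℕ) (g : G) : AssocLie G :=
  open Classical in if h : g ∈ lcs G (w - 1) then mkL (w - 1) ⟨g, h⟩ else 0

theorem cls_of_mem {w : ℕ} {g : G} (h : g ∈ Gam G w) : cls w g = mkL (w - 1) ⟨g, h⟩ := by
  unfold cls
  exact dif_pos h

theorem cls_succ {n : ℕ} {g : G} (h : g ∈ lcs G n) : cls (n + 1) g = mkL n ⟨g, h⟩ :=
  cls_of_mem h

theorem cls_one {w : ℕ} : cls w (1 : G) = 0 := by
  rw [cls_of_mem (one_mem _)]
  exact mkL_one _

theorem cls_mul {w : ℕ} {g h : G} (hg : g ∈ Gam G w) (hh : h ∈ Gam G w) :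
    cls w (g * h) = cls w g + cls w h := by
  rw [cls_of_mem hg, cls_of_mem hh, cls_of_mem (mul_mem hg hh), ← mkL_mul]
  rfl

theorem cls_inv {w : ℕ} {g : G} (hg : g ∈ Gam G w) : cls w g⁻¹ = - cls w g := by
  rw [cls_of_mem hg, cls_of_mem (inv_mem hg), ← mkL_inv]
  rfl

theorem cls_conj {w : ℕ} {g : G} (hg : g ∈ Gam G w) (x : G) :
    cls w (x * g * x⁻¹) = cls w g := by
  rw [cls_of_mem hg, cls_of_mem (conj_mem' x hg)]
  exact mkL_conj _ x _ _ rfl

theorem cls_pow {w : ℕ} {g : G} (hg : g ∈ Gam G w) (n : ℕ) : cls w (g ^ n) = n • cls w g := by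
  induction n with
  | zero => rw [pow_zero, cls_one, zero_smul]
  | succ n ih => rw [pow_succ, cls_mul (pow_mem hg n) hg, ih, succ_nsmul]

theorem mkL_eq_iff {n : ℕ} {g h : lcs G n} :
    mkL n g = mkL n h ↔ (g : G)⁻¹ * (h : G) ∈ lcs G (n + 1) := by
  rw [← grMk_eq]
  exact (DirectSum.of_injective n).eq_iff

theorem cls_eq_iff {w : ℕ} (hw : 1 ≤ w) {g h : G} (hg : g ∈ Gam G w) (hh : h ∈ Gam G w) :
    cls w g = cls w h ↔ g⁻¹ * h ∈ Gam G (w + 1) := by
  rw [cls_of_mem hg, cls_of_mem hh, mkL_eq_iff]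
  have : w - 1 + 1 = w + 1 - 1 := by omega
  unfold Gam
  rw [← this]

theorem cls_eq_zero_iff {w : ℕ} (hw : 1 ≤ w) {g : G} (hg : g ∈ Gam G w) :
    cls w g = 0 ↔ g ∈ Gam G (w + 1) := by
  rw [← cls_one (G := G) (w := w), eq_comm, cls_eq_iff hw (one_mem _) hg, inv_one, one_mul]

theorem cls_eq_zero {w : ℕ} (hw : 1 ≤ w) {g : G} (hg : g ∈ Gam G (w + 1)) : cls w g = 0 :=
  (cls_eq_zero_iff hw (Gam_anti (Nat.le_succ w) hg)).2 hg

theorem cls_lie {i j : ℕ} (hi : 1 ≤ i) (hj : 1 ≤ j) {g h : G} (hg : g ∈ Gam G i)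
    (hh : h ∈ Gam G j) : ⁅cls i g, cls j h⁆ = cls (i + j) ⁅g, h⁆ := by
  rw [cls_of_mem hg, cls_of_mem hh, cls_of_mem (Gam_comm hg hh)]
  change lieHom _ _ = _
  rw [lieHom_mkL]
  exact mkL_congr (by omega) rfl

theorem cls_lie' {i j k : ℕ} (hi : 1 ≤ i) (hj : 1 ≤ j) {g h : G} (hg : g ∈ Gam G i)
    (hh : h ∈ Gam G j) (hk : k = i + j) : cls k ⁅g, h⁆ = ⁅cls i g, cls j h⁆ := by
  rw [hk, cls_lie hi hj hg hh]

/-! ### Components -/

/-- Elements of `𝓛(G)` in different degrees. -/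
theorem component_cls_ne {w n : ℕ} (hw : 1 ≤ w) (g : G) (h : n + 1 ≠ w) :
    (show DirectSum ℕ (Grd G) from cls w g) n = 0 := by
  unfold cls
  split_ifs with hg
  · exact DirectSum.of_eq_of_ne _ _ _ (by omega)
  · rfl

/-- The component of index `n` as an additive map. -/
noncomputable def compL (n : ℕ) : AssocLie G →+ Grd G n :=
  (DirectSum.component ℤ ℕ (Grd G) n).toAddMonoidHom

theorem compL_mkL_same (n : ℕ) (g : lcs G n) : compL n (mkL n g) = grMk n g :=
  DirectSum.of_eq_same _ _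

theorem compL_mkL_ne {m n : ℕ} (h : m ≠ n) (g : lcs G m) : compL n (mkL m g) = 0 :=
  DirectSum.of_eq_of_ne _ _ _ h.symm

theorem compL_cls_same {w : ℕ} {g : G} (hg : g ∈ Gam G w) :
    compL (w - 1) (cls w g) = grMk (w - 1) ⟨g, hg⟩ := by
  rw [cls_of_mem hg, compL_mkL_same]

theorem compL_cls_ne {w n : ℕ} (hw : 1 ≤ w) (h : n + 1 ≠ w) (g : G) :
    compL n (cls w g) = 0 := by
  unfold cls
  split_ifs with hg
  · exact compL_mkL_ne (by omega) _
  · exact map_zero _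

/-! ### Functoriality -/

variable {H : Type*} [Group H]

theorem lcs_map (f : G →* H) {n : ℕ} {g : G} (hg : g ∈ lcs G n) : f g ∈ lcs H n := by
  have h1 : (lcs G n).map f = ((⊤ : Subgroup G).map f).lowerCentralSeries n :=
    Subgroup.map_lowerCentralSeries _ f n
  have h2 : f g ∈ (lcs G n).map f := mem_map_of_mem f hg
  rw [h1] at h2
  exact Subgroup.lowerCentralSeries_mono n le_top h2

theorem Gam_map (f : G →* H) {n : ℕ} {g : G} (hg : g ∈ Gam G n) : f g ∈ Gam H n := lcs_map f hg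

/-- The restriction of `f` to `γ_{n+1}`. -/
def lcsMap (f : G →* H) (n : ℕ) : lcs G n →* lcs H n :=
  MonoidHom.mk' (fun g => ⟨f g, lcs_map f g.2⟩) (fun a b => Subtype.ext (map_mul f _ _))

/-- The map induced by `f` on homogeneous components. -/
def grMap (f : G →* H) (n : ℕ) : Grd G n →+ Grd H n :=
  AddMonoidHom.mk' (fun x => Additive.ofMul (QuotientGroup.map _ _ (lcsMap f n) (by
    intro g hg
    rw [mem_subgroupOf] at hg
    rw [mem_comap, mem_subgroupOf]
    exact lcs_map f hg) (Additive.toMul x)))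
    (fun x y => congrArg Additive.ofMul (map_mul _ (Additive.toMul x) (Additive.toMul y)))

theorem grMap_mk (f : G →* H) (n : ℕ) (g : lcs G n) :
    grMap f n (grMk n g) = grMk n ⟨f g, lcs_map f g.2⟩ := rfl

/-- The additive map `𝓛(G) → 𝓛(H)` induced by `f : G → H`. -/
noncomputable def mapAdd (f : G →* H) : AssocLie G →+ AssocLie H :=
  DirectSum.toAddMonoid fun n => (ofL n).comp (grMap f n)

theorem mapAdd_mkL (f : G →* H) (n : ℕ) (g : lcs G n) :
    mapAdd f (mkL n g) = mkL n ⟨f g, lcs_map f g.2⟩ :=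
  DirectSum.toAddMonoid_of _ _ _

theorem mapAdd_cls (f : G →* H) {w : ℕ} {g : G} (hg : g ∈ Gam G w) :
    mapAdd f (cls w g) = cls w (f g) := by
  rw [cls_of_mem hg, cls_of_mem (Gam_map f hg)]
  exact mapAdd_mkL f _ _

theorem mapAdd_lie (f : G →* H) (x y : AssocLie G) :
    mapAdd f ⁅x, y⁆ = ⁅mapAdd f x, mapAdd f y⁆ := by
  induction x using ind with
  | h0 => rw [zero_lie, map_zero, zero_lie]
  | h2 x x' h h' => rw [add_lie, map_add, map_add, add_lie, h, h']
  | h1 m g =>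
    induction y using ind with
    | h0 => rw [lie_zero, map_zero, lie_zero]
    | h2 x x' h h' => rw [lie_add, map_add, map_add, lie_add, h, h']
    | h1 n h =>
      rw [mapAdd_mkL, mapAdd_mkL]
      change mapAdd f (lieHom _ _) = lieHom _ _
      rw [lieHom_mkL, lieHom_mkL, mapAdd_mkL]
      apply mkL_congr rfl
      exact map_commutatorElement f _ _

/-- The Lie ring homomorphism `𝓛(G) → 𝓛(H)` induced by `f : G → H`. -/
noncomputable def mapLie (f : G →* H) : AssocLie G →ₗ⁅ℤ⁆ AssocLie H :=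
  { (mapAdd f).toIntLinearMap with
    map_lie' := fun {x y} => mapAdd_lie f x y }

theorem mapLie_cls (f : G →* H) {w : ℕ} {g : G} (hg : g ∈ Gam G w) :
    mapLie f (cls w g) = cls w (f g) := mapAdd_cls f hg

end BurnLie
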