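import Pool.Agent.H77R2.Taylor

/-!
# Groups of exponent nine: cubes of elements deep in the lower central series

If `G` has exponent `9` and `γ_11(G) = 1` then `u^3 = 1` for all `u ∈ γ_5(G)`, and for
`c ∈ γ_2(G)` the relation `∏_{h ∈ {ab, ab⁻¹, a, b}} [c, h, …, h] = 1` (eight `h`'s) holds.
-/

namespace BurnLie

open Subgroup
open scoped commutatorElement

variable {G : Type*} [Group G]

theorem cube_mul {u v c : G} (hc : v * u = u * v * c) (hcu : c * u = u * c) (hcv : c * v = v * c) :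
    (u * v) ^ 3 = u ^ 3 * v ^ 3 * c ^ 3 := by
  have e : ∀ a b : G, v * (u * a) = u * (v * (c * a)) := by
    intro a _; rw [← mul_assoc, hc]; simp only [mul_assoc]
  have e1 : ∀ a : G, c * (u * a) = u * (c * a) := by
    intro a; rw [← mul_assoc, hcu, mul_assoc]
  have e2 : ∀ a : G, c * (v * a) = v * (c * a) := by
    intro a; rw [← mul_assoc, hcv, mul_assoc]
  simp only [pow_succ, pow_zero, one_mul, mul_assoc, e _ (1 : G), e1, e2, hcv]

/-- `(uv)^3 = u^3 v^3 [v,u]^3` for `u, v ∈ γ_4`, if `γ_11 = 1`. -/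
theorem cube_mul' (h11 : Gam G 11 = ⊥) {u v : G} (hu : u ∈ Gam G 4) (hv : v ∈ Gam G 4) :
    (u * v) ^ 3 = u ^ 3 * v ^ 3 * ⁅v, u⁆ ^ 3 := by
  have hc : ⁅v, u⁆ ∈ Gam G 8 := Gam_comm' hv hu (by norm_num)
  have hcu : ⁅⁅v, u⁆, u⁆ ∈ Gam G 11 := Gam_comm' hc hu (by norm_num)
  have hcv : ⁅⁅v, u⁆, v⁆ ∈ Gam G 11 := Gam_comm' hc hv (by norm_num)
  rw [h11, mem_bot, commutatorElement_eq_one_iff_mul_comm] at hcu hcv
  apply cube_mul _ hcu hcv
  rw [mul_assoc, ← hcv, ← mul_assoc, ← hcu]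
  simp only [commutatorElement_def]; group

section Step

variable (h9 : ∀ g : G, g ^ 9 = 1) (h11 : Gam G 11 = ⊥) (m : ℕ)
  (hE : ∀ u ∈ Gam G (m + 6), u ^ 3 = 1)

include h11 in
theorem Gam_bot {n : ℕ} (hn : 11 ≤ n) : Gam G n = ⊥ := by
  rw [eq_bot_iff, ← h11]; exact Gam_anti hn

include h11 hE in
theorem cube_mul5 {u v : G} (hu : u ∈ Gam G (m + 4)) (hv : v ∈ Gam G (m + 4)) :
    (u * v) ^ 3 = u ^ 3 * v ^ 3 := by
  rw [cube_mul' h11 (Gam_anti (by omega) hu) (Gam_anti (by omega) hv),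
    hE _ (Gam_comm' hv hu (by omega)), mul_one]

/-- The classes, in degree `m + 5`, of the elements with trivial cube. -/
def Zs : AddSubgroup (AssocLie G) where
  carrier := {ξ | ∃ u ∈ Gam G (m + 5), ξ = cls (m + 5) u ∧ u ^ 3 = 1}
  zero_mem' := ⟨1, one_mem _, cls_one.symm, one_pow 3⟩
  add_mem' := by
    rintro _ _ ⟨u, hu, rfl, hu3⟩ ⟨v, hv, rfl, hv3⟩
    refine ⟨u * v, mul_mem hu hv, (cls_mul hu hv).symm, ?_⟩
    rw [cube_mul' h11 (Gam_anti (by omega) hu) (Gam_anti (by omega) hv),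
      hE _ (Gam_comm' hv hu (by omega)), mul_one, hu3, hv3, mul_one]
  neg_mem' := by
    rintro _ ⟨u, hu, rfl, hu3⟩
    exact ⟨u⁻¹, inv_mem hu, (cls_inv hu).symm, by rw [inv_pow, hu3, inv_one]⟩

theorem mem_Zs_of {u : G} (hu : u ∈ Gam G (m + 5)) (h3 : u ^ 3 = 1) :
    cls (m + 5) u ∈ Zs h11 m hE := ⟨u, hu, rfl, h3⟩

theorem cube_of_mem {u : G} (hu : u ∈ Gam G (m + 5)) (h : cls (m + 5) u ∈ Zs h11 m hE) :
    u ^ 3 = 1 := by
  obtain ⟨v, hv, e, hv3⟩ := h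
  have h1 : v⁻¹ * u ∈ Gam G (m + 6) := (cls_eq_iff (by omega) hv hu).1 e.symm
  have h2 : u = v * (v⁻¹ * u) := by group
  rw [h2, cube_mul' h11 (Gam_anti (by omega) hv) (Gam_anti (by omega) h1), hv3, hE _ h1,
    hE _ (Gam_comm' h1 hv (by omega))]
  simp

/-- The commutator part of `p3 x y` is deep. -/
theorem s_mem {k : ℕ} {x y : G} (hy : y ∈ Gam G k) :
    ((D x y) ^ 3)⁻¹ * (y⁻¹ * D x y * y) * (D x y) ^ 2 ∈ Gam G (2 * k + 1) := by
  have h1 : ⁅(D x y)⁻¹, y⁻¹⁆ ∈ Gam G (2 * k + 1) :=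
    Gam_comm' (inv_mem (D_mem x hy)) (inv_mem hy) (by omega)
  have h2 := conj_mem' ((D x y) ^ 2)⁻¹ h1
  convert h2 using 1
  simp only [commutatorElement_def]; group

theorem cls_s {k : ℕ} (hk : 1 ≤ k) {x y : G} (hy : y ∈ Gam G k) :
    cls (2 * k + 1) (((D x y) ^ 3)⁻¹ * (y⁻¹ * D x y * y) * (D x y) ^ 2) =
      ⁅cls (k + 1) (D x y), cls k y⁆ := by
  have h1 : ⁅(D x y)⁻¹, y⁻¹⁆ ∈ Gam G (2 * k + 1) :=
    Gam_comm' (inv_mem (D_mem x hy)) (inv_mem hy) (by omega)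
  have h2 : ((D x y) ^ 3)⁻¹ * (y⁻¹ * D x y * y) * (D x y) ^ 2 =
      ((D x y) ^ 2)⁻¹ * ⁅(D x y)⁻¹, y⁻¹⁆ * ((D x y) ^ 2)⁻¹⁻¹ := by
    simp only [commutatorElement_def]; group
  rw [h2, cls_conj h1, cls_lie' (i := k + 1) (j := k) (by omega) hk (inv_mem (D_mem x hy))
    (inv_mem hy) (by omega), cls_inv (D_mem x hy), cls_inv hy, neg_lie, lie_neg, neg_neg]

theorem p3_mem {k : ℕ} (hk : 1 ≤ k) {x y : G} (hy : y ∈ Gam G k) : p3 x y ∈ Gam G (k + 2) :=
  mul_mem (Gam_anti (by omega) (s_mem hy)) (D_mem x (D_mem x hy))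

theorem cls_p3 {k : ℕ} (hk : 2 ≤ k) {x y : G} (hy : y ∈ Gam G k) :
    cls (k + 2) (p3 x y) = ⁅cls 1 x, ⁅cls 1 x, cls k y⁆⁆ := by
  unfold p3
  rw [cls_mul (Gam_anti (by omega) (s_mem hy)) (D_mem x (D_mem x hy)),
    cls_eq_zero (by omega) (Gam_anti (by omega) (s_mem hy)), zero_add,
    cls_D (i := 1) (j := k + 1) (by omega) (by omega) (mem_Gam_one x) (D_mem x hy) (by omega),
    cls_D (i := 1) (j := k) (by omega) (by omega) (mem_Gam_one x) hy (by omega)]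

/-- Iterated brackets. -/
theorem cls_Dit {k : ℕ} (hk : 1 ≤ k) (x : G) {y : G} (hy : y ∈ Gam G k) (j : ℕ) :
    cls (k + j) ((D x)^[j] y) = (fun z => ⁅cls 1 x, z⁆)^[j] (cls k y) := by
  induction j with
  | zero => rfl
  | succ j ih =>
    rw [Function.iterate_succ_apply', Function.iterate_succ_apply', ← ih]
    exact cls_D (by omega) (by omega) (mem_Gam_one x) (Dit_mem x hy j) (by omega)

include h9 h11 hE in
theorem rel1 (x : G) {y : G} (hy : y ∈ Gam G (m + 3)) :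
    ⁅cls 1 x, ⁅cls 1 x, cls (m + 3) y⁆⁆ ∈ Zs h11 m hE := by
  obtain ⟨d, hd, e⟩ := nine (k := m + 3) (by omega) (Gam_bot h11 (by omega)) h9 x hy
  rw [hE d (Gam_anti (by omega) hd)] at e
  have h8 : (D x)^[8] y = 1 := by
    have := Dit_mem x hy 8
    rw [Gam_bot h11 (by omega)] at this
    exact this
  rw [h8, mul_one, mul_one] at e
  rw [← cls_p3 (by omega) hy]
  exact mem_Zs_of h11 m hE (p3_mem (by omega) hy) e

include h9 h11 hE in
theorem rel2 (x z : G) {y : G} (hy : y ∈ Gam G (m + 2)) :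
    ⁅cls 1 z, ⁅cls 1 x, ⁅cls 1 x, cls (m + 2) y⁆⁆⁆ ∈ Zs h11 m hE := by
  obtain ⟨d, hd, e⟩ := nine (k := m + 2) (by omega) (Gam_bot h11 (by omega)) h9 x hy
  rw [hE d (Gam_anti (by omega) hd), mul_one] at e
  have h8 : ⁅(D x)^[8] y, z⁆ ∈ Gam G 11 :=
    Gam_comm' (Dit_mem x hy 8) (mem_Gam_one z) (by omega)
  rw [h11, mem_bot, commutatorElement_eq_one_iff_mul_comm] at h8
  have hq : p3 x y ∈ Gam G (m + 4) := p3_mem (by omega) hy
  have hzq : ⁅z, p3 x y⁆ ∈ Gam G (m + 5) := Gam_comm' (mem_Gam_one z) hq (by omega)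
  have e1 : p3 x y ^ 3 = ((D x)^[8] y)⁻¹ := by
    rw [eq_inv_iff_mul_eq_one]; exact e
  have e2 : (z * p3 x y * z⁻¹) ^ 3 = p3 x y ^ 3 := by
    rw [conj_pow, e1, mul_inv_eq_iff_eq_mul, eq_inv_mul_iff_mul_eq, ← mul_assoc, h8]
    group
  have e3 : z * p3 x y * z⁻¹ = ⁅z, p3 x y⁆ * p3 x y := by simp [commutatorElement_def]
  have e4 : ⁅z, p3 x y⁆ ^ 3 = 1 := by
    rw [e3, cube_mul5 h11 m hE (Gam_anti (by omega) hzq) hq] at e2
    simpa using e2
  have := mem_Zs_of h11 m hE hzq e4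
  rwa [cls_lie' (i := 1) (j := m + 4) (by omega) (by omega) (mem_Gam_one z) hq (by omega),
    cls_p3 (by omega) hy] at this

theorem D_mul (p x y : G) : D (p * x) y = D p y * (p * D x y * p⁻¹) := by
  simp only [D]; group

theorem D_mul' (x a b : G) : D x (a * b) = (b⁻¹ * D x a * b) * D x b := by
  simp only [D]; group

include h9 h11 hE in
theorem rel3 (x : G) {p y : G} (hp : p ∈ Gam G 2) (hy : y ∈ Gam G (m + 2)) :
    ⁅cls 1 x, ⁅cls 2 p, cls (m + 2) y⁆⁆ + ⁅cls 2 p, ⁅cls 1 x, cls (m + 2) y⁆⁆ ∈ Zs h11 m hE := by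
  obtain ⟨d, hd, e⟩ := nine (k := m + 2) (by omega) (Gam_bot h11 (by omega)) h9 x hy
  rw [hE d (Gam_anti (by omega) hd), mul_one] at e
  obtain ⟨d', hd', e'⟩ := nine (k := m + 2) (by omega) (Gam_bot h11 (by omega)) h9 (p * x) hy
  rw [hE d' (Gam_anti (by omega) hd'), mul_one] at e'
  have hX : cls 1 (p * x) = cls 1 x := by
    rw [cls_mul (mem_Gam_one _) (mem_Gam_one _), cls_eq_zero (by norm_num) hp, zero_add]
  -- the two iterated commutators agree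
  have h8 : (D x)^[8] y = (D (p * x))^[8] y := by
    have h1 : cls (m + 2 + 8) ((D x)^[8] y) = cls (m + 2 + 8) ((D (p * x))^[8] y) := by
      rw [cls_Dit (by omega) x hy, cls_Dit (by omega) (p * x) hy, hX]
    rw [cls_eq_iff (by omega) (Dit_mem x hy 8) (Dit_mem _ hy 8), Gam_bot h11 (by omega),
      mem_bot, inv_mul_eq_one] at h1
    exact h1
  have e3 : p3 x y ^ 3 = p3 (p * x) y ^ 3 := by
    rw [← eq_inv_iff_mul_eq_one] at e e'
    rw [e, e', h8]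
  -- notation
  set e0 := D x y with he0
  set f0 := D x e0 with hf0
  set e1 := D (p * x) y with he1
  set f1 := D (p * x) e1 with hf1
  set s0 := (e0 ^ 3)⁻¹ * (y⁻¹ * e0 * y) * e0 ^ 2 with hs0
  set s1 := (e1 ^ 3)⁻¹ * (y⁻¹ * e1 * y) * e1 ^ 2 with hs1
  have q0 : p3 x y = s0 * f0 := rfl
  have q1 : p3 (p * x) y = s1 * f1 := rfl
  have me0 : e0 ∈ Gam G (m + 3) := D_mem x hy
  have me1 : e1 ∈ Gam G (m + 3) := D_mem _ hy
  have mf0 : f0 ∈ Gam G (m + 4) := D_mem x me0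
  have mf1 : f1 ∈ Gam G (m + 4) := D_mem _ me1
  have ms0 : s0 ∈ Gam G (2 * (m + 2) + 1) := s_mem hy
  have ms1 : s1 ∈ Gam G (2 * (m + 2) + 1) := s_mem hy
  -- ε
  set ε := D p y * ⁅p, e0⁆ with hε
  have mDp : D p y ∈ Gam G (m + 4) := by
    have := D_mem' hp hy
    rwa [show 2 + (m + 2) = m + 4 by ring] at this
  have mpe : ⁅p, e0⁆ ∈ Gam G (m + 5) := Gam_comm' hp me0 (by omega)
  have mε : ε ∈ Gam G (m + 4) := mul_mem mDp (Gam_anti (by omega) mpe)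
  have e1ε : e1 = ε * e0 := by
    rw [he1, D_mul, hε, ← he0]; simp only [commutatorElement_def]; group
  have cε : cls (m + 4) ε = ⁅cls 2 p, cls (m + 2) y⁆ := by
    rw [hε, cls_mul mDp (Gam_anti (by omega) mpe), cls_eq_zero (by omega) mpe, add_zero,
      cls_D (i := 2) (j := m + 2) (by omega) (by omega) hp hy (by omega)]
  have ce : cls (m + 3) e1 = cls (m + 3) e0 := by
    rw [e1ε, cls_mul (Gam_anti (by omega) mε) me0, cls_eq_zero (by omega) mε, zero_add]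
  have ce0 : cls (m + 3) e0 = ⁅cls 1 x, cls (m + 2) y⁆ :=
    cls_D (by omega) (by omega) (mem_Gam_one x) hy (by omega)
  -- s
  have ms : s0⁻¹ * s1 ∈ Gam G (m + 6) := by
    have h1 : cls (2 * (m + 2) + 1) s0 = cls (2 * (m + 2) + 1) s1 := by
      rw [hs0, hs1, he0, he1, cls_s (by omega) hy, cls_s (by omega) hy, ← he0, ← he1,
        show m + 2 + 1 = m + 3 by ring, ce]
    rw [cls_eq_iff (by omega) ms0 ms1] at h1
    exact Gam_anti (by omega) h1
  -- f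
  have mDpe : D p e1 ∈ Gam G (m + 5) := by
    have := D_mem' hp me1
    rwa [show 2 + (m + 3) = m + 5 by ring] at this
  have mDxε : D x ε ∈ Gam G (m + 5) := D_mem x mε
  have mpf : ⁅p, f0⁆ ∈ Gam G (m + 6) := Gam_comm' hp mf0 (by omega)
  have ff : f1 * f0⁻¹ = D p e1 * (p * (e0⁻¹ * D x ε * e0) * p⁻¹) * ⁅p, f0⁆ := by
    rw [hf1, D_mul]
    have : D x e1 = (e0⁻¹ * D x ε * e0) * f0 := by
      rw [e1ε, D_mul']
    rw [this]
    simp only [commutatorElement_def]; group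
  have m1 : e0⁻¹ * D x ε * e0 ∈ Gam G (m + 5) := by
    have := conj_mem' e0⁻¹ mDxε
    rwa [inv_inv] at this
  have m2 : p * (e0⁻¹ * D x ε * e0) * p⁻¹ ∈ Gam G (m + 5) := conj_mem' p m1
  have mff : f1 * f0⁻¹ ∈ Gam G (m + 5) := by
    rw [ff]
    exact mul_mem (mul_mem mDpe m2) (Gam_anti (by omega) mpf)
  have cff : cls (m + 5) (f1 * f0⁻¹) =
      ⁅cls 1 x, ⁅cls 2 p, cls (m + 2) y⁆⁆ + ⁅cls 2 p, ⁅cls 1 x, cls (m + 2) y⁆⁆ := by
    rw [ff, cls_mul (mul_mem mDpe m2) (Gam_anti (by omega) mpf), cls_mul mDpe m2,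
      cls_conj m1, cls_eq_zero (by omega) mpf, add_zero]
    have h2 : cls (m + 5) (e0⁻¹ * D x ε * e0) = cls (m + 5) (D x ε) := by
      have := cls_conj mDxε e0⁻¹
      rwa [inv_inv] at this
    rw [h2, cls_D (i := 2) (j := m + 3) (by omega) (by omega) hp me1 (by omega), ce, ce0,
      cls_D (i := 1) (j := m + 4) (by omega) (by omega) (mem_Gam_one x) mε (by omega), cε,
      add_comm]
  -- the element `b`
  set b := (p3 x y)⁻¹ * p3 (p * x) y with hb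
  have hb' : b = (f0⁻¹ * (s0⁻¹ * s1) * f0) * (f0⁻¹ * (f1 * f0⁻¹) * f0) := by
    rw [hb, q0, q1]; group
  have m3 : f0⁻¹ * (s0⁻¹ * s1) * f0 ∈ Gam G (m + 6) := by
    have := conj_mem' f0⁻¹ ms
    rwa [inv_inv] at this
  have m4 : f0⁻¹ * (f1 * f0⁻¹) * f0 ∈ Gam G (m + 5) := by
    have := conj_mem' f0⁻¹ mff
    rwa [inv_inv] at this
  have mb : b ∈ Gam G (m + 5) := by
    rw [hb']; exact mul_mem (Gam_anti (by omega) m3) m4
  have cb : cls (m + 5) b =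
      ⁅cls 1 x, ⁅cls 2 p, cls (m + 2) y⁆⁆ + ⁅cls 2 p, ⁅cls 1 x, cls (m + 2) y⁆⁆ := by
    rw [hb', cls_mul (Gam_anti (by omega) m3) m4, cls_eq_zero (by omega) m3, zero_add, ← cff]
    have := cls_conj mff f0⁻¹
    rwa [inv_inv] at this
  have b3 : b ^ 3 = 1 := by
    have h1 : p3 (p * x) y = p3 x y * b := by rw [hb]; group
    rw [h1, cube_mul5 h11 m hE (p3_mem (by omega) hy) (Gam_anti (by omega) mb)] at e3
    simpa using e3
  rw [← cb]
  exact mem_Zs_of h11 m hE mb b3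

include h9 in
theorem three_mem {u : G} (hu : u ∈ Gam G (m + 5)) :
    (3 : ℕ) • cls (m + 5) u ∈ Zs h11 m hE := by
  rw [← cls_pow hu]
  refine mem_Zs_of h11 m hE (pow_mem hu 3) ?_
  rw [← pow_mul]
  exact h9 u

end Step

/-- Additive maps are determined, modulo a subgroup, by brackets with degree one. -/
theorem span_mem {w : ℕ} (hw : 1 ≤ w) (Z : AddSubgroup (AssocLie G))
    (F : AssocLie G →+ AssocLie G)
    (h : ∀ x y : G, y ∈ Gam G w → F ⁅cls 1 x, cls w y⁆ ∈ Z) {u : G} (hu : u ∈ Gam G (w + 1)) :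
    F (cls (w + 1) u) ∈ Z := by
  obtain ⟨n, rfl⟩ : ∃ n, w = n + 1 := ⟨w - 1, by omega⟩
  have hu' : u ∈ lcs G (n + 1) := hu
  rw [lcs, Subgroup.mem_lowerCentralSeries_succ_iff] at hu'
  have key : ∀ v, v ∈ closure {x | ∃ p ∈ (⊤ : Subgroup G).lowerCentralSeries n,
      ∃ q ∈ (⊤ : Subgroup G), ⁅p, q⁆ = x} → v ∈ Gam G (n + 1 + 1) := fun v hv => hv
  induction hu' using closure_induction with
  | mem v hv =>
    obtain ⟨p, hp, q, -, rfl⟩ := hv
    have hp' : p ∈ Gam G (n + 1) := hp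
    rw [cls_lie' (i := n + 1) (j := 1) (by omega) (by omega) hp' (mem_Gam_one q) rfl,
      ← lie_skew, map_neg]
    exact neg_mem (h q p hp')
  | one => rw [cls_one, map_zero]; exact zero_mem _
  | mul a b ha hb ha' hb' =>
    rw [cls_mul (key a ha) (key b hb), map_add]
    exact add_mem (ha' (key a ha)) (hb' (key b hb))
  | inv a ha ha' =>
    rw [cls_inv (key a ha), map_neg]
    exact neg_mem (ha' (key a ha))

/-- `ad X` as an additive map. -/
noncomputable def adL (X : AssocLie G) : AssocLie G →+ AssocLie G := AddMonoidHom.mk' (fun y => ⁅X, y⁆) (lie_add X)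

theorem adL_apply (X y : AssocLie G) : adL X y = ⁅X, y⁆ := rfl

theorem cubes_step (h9 : ∀ g : G, g ^ 9 = 1) (h11 : Gam G 11 = ⊥) (m : ℕ)
    (hE : ∀ u ∈ Gam G (m + 6), u ^ 3 = 1) : ∀ u ∈ Gam G (m + 5), u ^ 3 = 1 := by
  set Z := Zs h11 m hE with hZ
  -- the three-fold brackets
  have main : ∀ x1 x2 x3 y : G, y ∈ Gam G (m + 2) →
      ⁅cls 1 x3, ⁅cls 1 x2, ⁅cls 1 x1, cls (m + 2) y⁆⁆⁆ ∈ Z := by
    intro x1 x2 x3 y hy
    -- antisymmetry in the last two letters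
    have A1 : ∀ a b c : G, ⁅cls 1 a, ⁅cls 1 b, ⁅cls 1 c, cls (m + 2) y⁆⁆⁆ +
        ⁅cls 1 b, ⁅cls 1 a, ⁅cls 1 c, cls (m + 2) y⁆⁆⁆ ∈ Z := by
      intro a b c
      have hc : D c y ∈ Gam G (m + 3) := D_mem c hy
      have e : ⁅cls 1 c, cls (m + 2) y⁆ = cls (m + 3) (D c y) :=
        (cls_D (by omega) (by omega) (mem_Gam_one c) hy (by omega)).symm
      rw [e]
      have r1 := rel1 h9 h11 m hE (a * b) hc
      have r2 := rel1 h9 h11 m hE a hc
      have r3 := rel1 h9 h11 m hE b hc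
      rw [cls_mul (mem_Gam_one _) (mem_Gam_one _)] at r1
      have := sub_mem (sub_mem r1 r2) r3
      convert this using 1
      simp only [add_lie, lie_add]
      abel
    -- antisymmetry in the first two letters
    have A2 : ∀ a b c : G, ⁅cls 1 a, ⁅cls 1 b, ⁅cls 1 c, cls (m + 2) y⁆⁆⁆ +
        ⁅cls 1 a, ⁅cls 1 c, ⁅cls 1 b, cls (m + 2) y⁆⁆⁆ ∈ Z := by
      intro a b c
      have r1 := rel2 h9 h11 m hE (b * c) a hy
      have r2 := rel2 h9 h11 m hE b a hy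
      have r3 := rel2 h9 h11 m hE c a hy
      rw [cls_mul (mem_Gam_one _) (mem_Gam_one _)] at r1
      have := sub_mem (sub_mem r1 r2) r3
      convert this using 1
      simp only [add_lie, lie_add]
      abel
    -- the relation with a commutator
    have A3 := rel3 h9 h11 m hE x3 (p := ⁅x1, x2⁆)
      (Gam_comm (i := 1) (j := 1) (mem_Gam_one x1) (mem_Gam_one x2)) hy
    rw [cls_lie' (i := 1) (j := 1) (by omega) (by omega) (mem_Gam_one x1) (mem_Gam_one x2) rfl,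
      lie_lie, lie_lie, lie_sub] at A3
    -- three times the element
    have T3 : (3 : ℕ) • ⁅cls 1 x3, ⁅cls 1 x2, ⁅cls 1 x1, cls (m + 2) y⁆⁆⁆ ∈ Z := by
      have h1 : D x3 (D x2 (D x1 y)) ∈ Gam G (m + 5) := D_mem _ (D_mem _ (D_mem _ hy))
      have h2 := three_mem h9 h11 m hE h1
      rwa [cls_D (i := 1) (j := m + 4) (by omega) (by omega) (mem_Gam_one _)
          (D_mem _ (D_mem _ hy)) (by omega),
        cls_D (i := 1) (j := m + 3) (by omega) (by omega) (mem_Gam_one _) (D_mem _ hy) (by omega),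
        cls_D (i := 1) (j := m + 2) (by omega) (by omega) (mem_Gam_one _) hy (by omega)] at h2
    -- write everything in terms of `g a b c = ⁅a, ⁅b, ⁅c, y⁆⁆⁆`
    have a1 := A1 x1 x3 x2
    have a2 := A2 x3 x1 x2
    have a3 := A1 x1 x2 x3
    have a4 := A2 x1 x2 x3
    generalize ⁅cls 1 x3, ⁅cls 1 x2, ⁅cls 1 x1, cls (m + 2) y⁆⁆⁆ = g321 at *
    generalize ⁅cls 1 x3, ⁅cls 1 x1, ⁅cls 1 x2, cls (m + 2) y⁆⁆⁆ = g312 at *
    generalize ⁅cls 1 x1, ⁅cls 1 x2, ⁅cls 1 x3, cls (m + 2) y⁆⁆⁆ = g123 at *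
    generalize ⁅cls 1 x2, ⁅cls 1 x1, ⁅cls 1 x3, cls (m + 2) y⁆⁆⁆ = g213 at *
    generalize ⁅cls 1 x1, ⁅cls 1 x3, ⁅cls 1 x2, cls (m + 2) y⁆⁆⁆ = g132 at *
    have hfin : g321 = -((g312 - g321 + (g123 - g213)) - (g312 + g321) + (g123 + g213)
        - 2 • ((g123 + g132) - (g132 + g312) + (g312 + g321))) - 3 • g321 := by
      abel
    rw [hfin]
    exact sub_mem (neg_mem (sub_mem (add_mem (sub_mem A3 a2) a3)
      (nsmul_mem (add_mem (sub_mem a4 a1) a2) 2))) T3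
  intro u hu
  apply cube_of_mem h11 m hE hu
  have := span_mem (w := m + 4) (by omega) Z (AddMonoidHom.id _) ?_ hu
  · exact this
  intro x3 y3 hy3
  have := span_mem (w := m + 3) (by omega) Z (adL (cls 1 x3)) ?_ hy3
  · exact this
  intro x2 y2 hy2
  have := span_mem (w := m + 2) (by omega) Z ((adL (cls 1 x3)).comp (adL (cls 1 x2))) ?_ hy2
  · exact this
  intro x1 y hy
  exact main x1 x2 x3 y hy

/-- In a group of exponent `9` with `γ_11 = 1`, elements of `γ_5` have trivial cube. -/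
theorem cubes5 (h9 : ∀ g : G, g ^ 9 = 1) (h11 : Gam G 11 = ⊥) :
    ∀ u ∈ Gam G 5, u ^ 3 = 1 := by
  have : ∀ k m, 6 ≤ m + k → ∀ u ∈ Gam G (m + 5), u ^ 3 = 1 := by
    intro k
    induction k with
    | zero =>
      intro m hm u hu
      rw [Gam_bot h11 (by omega)] at hu
      rw [mem_bot.1 hu, one_pow]
    | succ k ih =>
      intro m hm
      exact cubes_step h9 h11 m (ih (m + 1) (by omega))
  exact this 6 0 (by omega)

/-- The relation for `c ∈ γ_2(G)`, in a group of exponent `9` with `γ_11(G) = 1`. -/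
theorem rel_nilp (h9 : ∀ g : G, g ^ 9 = 1) (h11 : Gam G 11 = ⊥) (a b : G) {c : G}
    (hc : c ∈ Gam G 2) :
    (D (a * b))^[8] c * (D (a * b⁻¹))^[8] c * (D a)^[8] c * (D b)^[8] c = 1 := by
  have h5 := cubes5 h9 h11
  have key : ∀ h : G, (D h)^[8] c = (p3 h c ^ 3)⁻¹ := by
    intro h
    obtain ⟨d, hd, e⟩ := nine (k := 2) le_rfl h11 h9 h hc
    rw [h5 d (Gam_anti (by norm_num) hd), mul_one] at e
    exact eq_inv_of_mul_eq_one_right e
  have cm : ∀ u v : G, u ∈ Gam G 4 → v ∈ Gam G 4 → (u * v) ^ 3 = u ^ 3 * v ^ 3 := by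
    intro u v hu hv
    rw [cube_mul' h11 hu hv, h5 _ (Gam_comm' hv hu (by norm_num)), mul_one]
  have q : ∀ h, p3 h c ∈ Gam G 4 := fun h => p3_mem (k := 2) (by norm_num) hc
  rw [key, key, key, key]
  set t := p3 b c * p3 a c * p3 (a * b⁻¹) c * p3 (a * b) c with ht
  have mt : t ∈ Gam G 4 := mul_mem (mul_mem (mul_mem (q _) (q _)) (q _)) (q _)
  have e1 : t ^ 3 = p3 b c ^ 3 * p3 a c ^ 3 * p3 (a * b⁻¹) c ^ 3 * p3 (a * b) c ^ 3 := by
    rw [ht, cm _ _ (mul_mem (mul_mem (q _) (q _)) (q _)) (q _),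
      cm _ _ (mul_mem (q _) (q _)) (q _), cm _ _ (q _) (q _)]
  have e2 : ((p3 (a * b) c ^ 3)⁻¹ * (p3 (a * b⁻¹) c ^ 3)⁻¹ * (p3 a c ^ 3)⁻¹ * (p3 b c ^ 3)⁻¹) =
      (t ^ 3)⁻¹ := by
    rw [e1]; group
  rw [e2, inv_eq_one]
  set r := p3 a c * p3 b c with hr
  have mr : r ∈ Gam G 4 := mul_mem (q _) (q _)
  have e3 : cls 4 t = cls 4 (r ^ 3) := by
    rw [cls_pow mr, hr, cls_mul (q _) (q _), ht,
      cls_mul (mul_mem (mul_mem (q _) (q _)) (q _)) (q _),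
      cls_mul (mul_mem (q _) (q _)) (q _), cls_mul (q _) (q _)]
    have c4 : ∀ h, cls 4 (p3 h c) = ⁅cls 1 h, ⁅cls 1 h, cls 2 c⁆⁆ :=
      fun h => cls_p3 (k := 2) le_rfl hc
    rw [c4, c4, c4, c4, cls_mul (mem_Gam_one _) (mem_Gam_one _),
      cls_mul (mem_Gam_one _) (mem_Gam_one _), cls_inv (mem_Gam_one _)]
    simp only [add_lie, lie_add, neg_lie, lie_neg]
    abel
  have mρ : (r ^ 3)⁻¹ * t ∈ Gam G 5 :=
    (cls_eq_iff (by norm_num) (pow_mem mr 3) mt).1 e3.symm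
  have e4 : t = r ^ 3 * ((r ^ 3)⁻¹ * t) := by group
  rw [e4, cm _ _ (pow_mem mr 3) (Gam_anti (by norm_num) mρ), h5 _ mρ, ← pow_mul, mul_one]
  exact h9 r

/-- The relation in an arbitrary group of exponent `9`. -/
theorem rel_group (h9 : ∀ g : G, g ^ 9 = 1) (a b : G) {c : G} (hc : c ∈ Gam G 2) :
    (D (a * b))^[8] c * (D (a * b⁻¹))^[8] c * (D a)^[8] c * (D b)^[8] c ∈ Gam G 11 := by
  let π : G →* G ⧸ Gam G 11 := QuotientGroup.mk' (Gam G 11)
  have hπ : Function.Surjective π := QuotientGroup.mk'_surjective _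
  have h9' : ∀ g : G ⧸ Gam G 11, g ^ 9 = 1 := by
    intro g
    obtain ⟨g, rfl⟩ := hπ g
    rw [← map_pow, h9, map_one]
  have h11 : Gam (G ⧸ Gam G 11) 11 = ⊥ := by
    have h1 : (lcs G 10).map π = ((⊤ : Subgroup G).map π).lowerCentralSeries 10 :=
      Subgroup.map_lowerCentralSeries _ π 10
    rw [Subgroup.map_top_of_surjective π hπ] at h1
    change lcs (G ⧸ Gam G 11) 10 = ⊥
    rw [lcs, ← h1, eq_bot_iff]
    rintro _ ⟨g, hg, rfl⟩
    rw [mem_bot]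
    exact (QuotientGroup.eq_one_iff g).2 hg
  have hD : ∀ h x : G, π (D h x) = D (π h) (π x) := by
    intro h x; simp [D]
  have hDi : ∀ (n : ℕ) (h x : G), π ((D h)^[n] x) = (D (π h))^[n] (π x) := by
    intro n h x
    induction n with
    | zero => rfl
    | succ n ih => rw [Function.iterate_succ_apply', Function.iterate_succ_apply', hD, ih]
  have := rel_nilp h9' h11 (π a) (π b) (Gam_map π hc)
  rw [← map_inv, ← map_mul, ← map_mul, ← hDi, ← hDi, ← hDi, ← hDi, ← map_mul, ← map_mul,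
    ← map_mul] at this
  exact (QuotientGroup.eq_one_iff _).1 this

/-- The eightfold bracket `⁅X, ⁅X, … ⁅X, C⁆ … ⁆⁆`. -/
def ad8 {L : Type*} [Bracket L L] (X C : L) : L := (fun z => ⁅X, z⁆)^[8] C

/-- **The relation in the associated Lie ring** of a group of exponent `9`. -/
theorem rel_lie (h9 : ∀ g : G, g ^ 9 = 1) (a b : G) {c : G} (hc : c ∈ Gam G 2) :
    ad8 (cls 1 a + cls 1 b) (cls 2 c) + ad8 (cls 1 a - cls 1 b) (cls 2 c) +
      ad8 (cls 1 a) (cls 2 c) + ad8 (cls 1 b) (cls 2 c) = 0 := by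
  have h := rel_group h9 a b hc
  have m : ∀ h, (D h)^[8] c ∈ Gam G 10 := fun h => Dit_mem h hc 8
  rw [← cls_eq_zero_iff (by norm_num) (mul_mem (mul_mem (mul_mem (m _) (m _)) (m _)) (m _)),
    cls_mul (mul_mem (mul_mem (m _) (m _)) (m _)) (m _),
    cls_mul (mul_mem (m _) (m _)) (m _), cls_mul (m _) (m _)] at h
  have e : ∀ h : G, cls 10 ((D h)^[8] c) = ad8 (cls 1 h) (cls 2 c) :=
    fun h => cls_Dit (k := 2) (by norm_num) h hc 8
  rw [e, e, e, e, cls_mul (mem_Gam_one _) (mem_Gam_one _),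
      cls_mul (mem_Gam_one _) (mem_Gam_one _), cls_inv (mem_Gam_one _), ← sub_eq_add_neg] at h
  exact h

end BurnLie
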