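import Pool.Agent.H77R2.Witness
import Pool.Agent.H77R2.Cubes

/-!
# The degree 13 component of the image of the transformed relation in the witness Lie ring
-/

namespace BurnLie

open Subgroup
open scoped commutatorElement

/-- `ξ` is the class in degree `n` of the element of the witness group given by `m`. -/
def Cl (n : ℕ) (m : Fn) (ξ : AssocLie QG) : Prop :=
  ∃ hm : m ∈ Md, io m hm ∈ Gam QG n ∧ ξ = cls n (io m hm)

/-- The generator `v` of the centre. -/
def vv : Heis := ⟨0, 0, 1⟩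
def aa : Heis := ⟨1, 0, 0⟩
def bb : Heis := ⟨0, 1, 0⟩

theorem comm_ab : ⁅aa, bb⁆ = vv := by
  simp only [commutatorElement_def]
  decide +kernel

theorem et_vv_mem : et vv ∈ Gam QG 2 := by
  rw [← comm_ab, ← et_comm_et]
  exact Gam_comm (i := 1) (j := 1) (mem_Gam_one _) (mem_Gam_one _)

theorem Cl.ad {n : ℕ} (hn : 1 ≤ n) {m : Fn} {ξ : AssocLie QG} (h : Cl n m ξ) (g : Heis) :
    Cl (n + 1) (dl g m) ⁅cls 1 (et g), ξ⁆ := by
  obtain ⟨hm, h1, rfl⟩ := h
  refine ⟨dl_mem_Md g hm, ?_, ?_⟩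
  · rw [← et_comm_io g m hm]
    exact Gam_comm' (mem_Gam_one _) h1 (by omega)
  · rw [← et_comm_io g m hm, cls_lie (by norm_num) hn (mem_Gam_one _) h1, add_comm]

theorem Cl.adv {n : ℕ} (hn : 1 ≤ n) {m : Fn} {ξ : AssocLie QG} (h : Cl n m ξ) :
    Cl (n + 2) (dl vv m) ⁅cls 2 (et vv), ξ⁆ := by
  obtain ⟨hm, h1, rfl⟩ := h
  refine ⟨dl_mem_Md vv hm, ?_, ?_⟩
  · rw [← et_comm_io vv m hm]
    exact Gam_comm' et_vv_mem h1 (by omega)
  · rw [← et_comm_io vv m hm, cls_lie (by norm_num) hn et_vv_mem h1, add_comm]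

theorem io_add (m m' : Fn) (hm : m ∈ Md) (hm' : m' ∈ Md) :
    io m hm * io m' hm' = io (m + m') (add_mem hm hm') := by
  apply Subtype.ext
  ext1
  · simp [io, tr_one]
  · simp [io]

theorem Cl.add {n : ℕ} {m m' : Fn} {ξ ξ' : AssocLie QG} (h : Cl n m ξ) (h' : Cl n m' ξ') :
    Cl n (m + m') (ξ + ξ') := by
  obtain ⟨hm, h1, rfl⟩ := h
  obtain ⟨hm', h1', rfl⟩ := h'
  refine ⟨add_mem hm hm', ?_, ?_⟩
  · rw [← io_add _ _ hm hm']; exact mul_mem h1 h1'
  · rw [← io_add _ _ hm hm', cls_mul h1 h1']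

theorem Cl.zero (n : ℕ) : Cl n 0 0 := by
  have : io 0 (zero_mem Md) = 1 := rfl
  exact ⟨zero_mem Md, by rw [this]; exact one_mem _, by rw [this, cls_one]⟩

theorem Cl.nsmul {n : ℕ} {m : Fn} {ξ : AssocLie QG} (h : Cl n m ξ) (k : ℕ) :
    Cl n (k • m) (k • ξ) := by
  induction k with
  | zero => rw [zero_smul, zero_smul]; exact Cl.zero n
  | succ k ih => rw [succ_nsmul, succ_nsmul]; exact ih.add h

/-- The degree 13 component of `T` is the class of `t`. -/
def Ok (t : Fn) (T : AssocLie QG) : Prop := ∃ ξ, Cl 13 t ξ ∧ compL 12 T = compL 12 ξ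

theorem Ok.add {t t' : Fn} {T T' : AssocLie QG} (h : Ok t T) (h' : Ok t' T') :
    Ok (t + t') (T + T') := by
  obtain ⟨ξ, h1, h2⟩ := h
  obtain ⟨ξ', h1', h2'⟩ := h'
  exact ⟨ξ + ξ', h1.add h1', by rw [map_add, map_add, h2, h2']⟩

theorem Ok.zero : Ok 0 0 := ⟨0, Cl.zero 13, rfl⟩

theorem Ok.of_ne {n : ℕ} (hn : 1 ≤ n) (hn' : n ≠ 13) {m : Fn} {ξ : AssocLie QG} (h : Cl n m ξ) :
    Ok 0 ξ := by
  obtain ⟨hm, h1, rfl⟩ := h
  refine ⟨0, Cl.zero 13, ?_⟩
  rw [compL_cls_ne hn (by omega), map_zero]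

theorem Ok.of_eq {n : ℕ} (hn : n = 13) {m : Fn} {ξ : AssocLie QG} (h : Cl n m ξ) :
    Ok m ξ := by
  subst hn
  exact ⟨ξ, h, rfl⟩

theorem Ok.sum {ι : Type*} (s : Finset ι) (t : ι → Fn) (T : ι → AssocLie QG)
    (h : ∀ i ∈ s, Ok (t i) (T i)) : Ok (∑ i ∈ s, t i) (∑ i ∈ s, T i) := by
  classical
  induction s using Finset.induction_on with
  | empty => simpa using Ok.zero
  | insert a s ha ih =>
    rw [Finset.sum_insert ha, Finset.sum_insert ha]
    exact (h a (Finset.mem_insert_self a s)).add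
      (ih fun i hi => h i (Finset.mem_insert_of_mem hi))

/-- A nonzero function in degree 13 gives a nonzero element. -/
theorem Ok.ne_zero {t : Fn} {T : AssocLie QG} (h : Ok t T) (ht : t ≠ 0) : T ≠ 0 := by
  rintro rfl
  obtain ⟨ξ, ⟨hm, h1, rfl⟩, h2⟩ := h
  rw [map_zero] at h2
  have h3 : compL 12 (cls 13 (io t hm)) = grMk 12 ⟨io t hm, h1⟩ := compL_cls_same (w := 13) h1
  rw [h3, ← grMk_one, grMk_eq] at h2
  have h4 : io t hm ∈ Gam QG 14 := by
    have : ((1 : lcs QG 12) : QG)⁻¹ * io t hm = io t hm := by simp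
    rw [this] at h2
    exact h2
  rw [QG_Gam14, mem_bot] at h4
  apply ht
  have := congrArg (fun w : QG => (w : Wr).m) h4
  exact this

/-- `ad X` in the ring of additive endomorphisms. -/
noncomputable def adE (X : AssocLie QG) : AddMonoid.End (AssocLie QG) := adL X

theorem adE_apply (X y : AssocLie QG) : adE X y = ⁅X, y⁆ := rfl

theorem adE_add (X Y : AssocLie QG) : adE (X + Y) = adE X + adE Y := by
  refine AddMonoidHom.ext fun y => ?_
  exact add_lie X Y y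

theorem ad8_eq (X y : AssocLie QG) : ad8 X y = (adE X ^ 8) y := by
  have : ∀ n : ℕ, (fun z => ⁅X, z⁆)^[n] y = (adE X ^ n) y := by
    intro n
    induction n with
    | zero => rfl
    | succ n ih =>
      rw [Function.iterate_succ_apply', ih, pow_succ']
      rfl
  exact this 8

theorem adE_comm (g : Heis) : Commute (adE (cls 1 (et g))) (adE (cls 2 (et vv))) := by
  have h0 : ⁅cls 1 (et g), cls 2 (et vv)⁆ = (0 : AssocLie QG) := by
    rw [cls_lie (by norm_num) (by norm_num) (mem_Gam_one _) et_vv_mem, et_comm_et]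
    have : ⁅g, vv⁆ = 1 := by
      simp only [commutatorElement_def]
      ext
      · simp [vv]
      · simp [vv]
      · simp [vv]; ring
    rw [this]
    have : et 1 = 1 := rfl
    rw [this, cls_one]
  refine AddMonoidHom.ext fun y => ?_
  change ⁅cls 1 (et g), ⁅cls 2 (et vv), y⁆⁆ = ⁅cls 2 (et vv), ⁅cls 1 (et g), y⁆⁆
  rw [leibniz_lie, h0, zero_lie, zero_add]

theorem Cl.ad_pow {n : ℕ} (hn : 1 ≤ n) {m : Fn} {ξ : AssocLie QG} (h : Cl n m ξ) (g : Heis)
    (k : ℕ) : Cl (n + k) ((dl g)^[k] m) ((adE (cls 1 (et g)) ^ k) ξ) := by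
  induction k with
  | zero => exact h
  | succ k ih =>
    rw [Function.iterate_succ_apply', pow_succ', ← add_assoc]
    exact ih.ad (by omega) g

theorem Cl.adv_pow {n : ℕ} (hn : 1 ≤ n) {m : Fn} {ξ : AssocLie QG} (h : Cl n m ξ)
    (k : ℕ) : Cl (n + 2 * k) ((dl vv)^[k] m) ((adE (cls 2 (et vv)) ^ k) ξ) := by
  induction k with
  | zero => exact h
  | succ k ih =>
    rw [Function.iterate_succ_apply', pow_succ', show n + 2 * (k + 1) = n + 2 * k + 2 by ring]
    exact ih.adv (by omega)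

theorem end_sum_apply {M : Type*} [AddCommMonoid M] {ι : Type*} (s : Finset ι)
    (f : ι → AddMonoid.End M) (x : M) : (∑ i ∈ s, f i) x = ∑ i ∈ s, f i x := by
  classical
  induction s using Finset.induction_on with
  | empty => rfl
  | insert a s ha ih =>
    rw [Finset.sum_insert ha, Finset.sum_insert ha, ← ih]
    rfl

theorem Ok_add_pow {n : ℕ} (hn : 1 ≤ n) {m : Fn} {ξ : AssocLie QG} (h : Cl n m ξ) (g : Heis)
    (k : ℕ) (hk : k ≤ 8) (hdeg : n + 2 * (8 - k) + k = 13) :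
    Ok ((dl g)^[k] ((dl vv)^[8 - k] (Nat.choose 8 k • m)))
      (ad8 (cls 1 (et g) + cls 2 (et vv)) ξ) := by
  rw [ad8_eq, adE_add, (adE_comm g).add_pow]
  have e : (∑ j ∈ Finset.range (8 + 1), adE (cls 1 (et g)) ^ j * adE (cls 2 (et vv)) ^ (8 - j) *
      (Nat.choose 8 j : AddMonoid.End (AssocLie QG))) ξ =
      ∑ j ∈ Finset.range (8 + 1), (adE (cls 1 (et g)) ^ j)
        ((adE (cls 2 (et vv)) ^ (8 - j)) (Nat.choose 8 j • ξ)) := by
    rw [end_sum_apply]
    rfl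
  rw [e]
  have hs : (dl g)^[k] ((dl vv)^[8 - k] (Nat.choose 8 k • m)) = ∑ j ∈ Finset.range (8 + 1),
      if j = k then (dl g)^[k] ((dl vv)^[8 - k] (Nat.choose 8 k • m)) else 0 := by
    rw [Finset.sum_ite_eq', if_pos (Finset.mem_range.2 (by omega))]
  rw [hs]
  apply Ok.sum
  intro j hj
  have hj' : j ≤ 8 := by have := Finset.mem_range.1 hj; omega
  have c := ((h.nsmul (Nat.choose 8 j)).adv_pow hn (8 - j)).ad_pow (by omega) g j
  split_ifs with hjk
  · subst hjk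
    exact Ok.of_eq hdeg c
  · exact Ok.of_ne (by omega) (by omega) c

theorem Ok_pow {n : ℕ} (hn : 1 ≤ n) (hn' : n + 8 ≠ 13) {m : Fn} {ξ : AssocLie QG} (h : Cl n m ξ)
    (g : Heis) : Ok 0 (ad8 (cls 1 (et g)) ξ) := by
  rw [ad8_eq]
  exact Ok.of_ne (by omega) hn' (h.ad_pow hn g 8)

theorem ad8_add {L : Type*} [LieRing L] (X C C' : L) : ad8 X (C + C') = ad8 X C + ad8 X C' := by
  have : ∀ n : ℕ, (fun z => ⁅X, z⁆)^[n] (C + C') =
      (fun z => ⁅X, z⁆)^[n] C + (fun z => ⁅X, z⁆)^[n] C' := by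
    intro n
    induction n with
    | zero => rfl
    | succ n ih => rw [Function.iterate_succ_apply', Function.iterate_succ_apply',
        Function.iterate_succ_apply', ih, lie_add]
  exact this 8

/-- The degree 13 part of `∑_ℓ ad(ℓ)^8 W`. -/
def tpart (g : Heis) : Fn :=
  (dl g)^[5] ((dl vv)^[3] (Nat.choose 8 5 • dl aa f0)) +
    (dl g)^[6] ((dl vv)^[2] (Nat.choose 8 6 • dl vv f0))

/-- The transformed relation is nonzero in the witness Lie ring. -/
theorem witness_ne_zero (A B C V W : AssocLie QG) (hA : A = cls 1 (et aa)) (hB : B = cls 1 (et bb))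
    (hC : C = cls 1 (io f0 f0_Md)) (hV : V = ⁅A, B⁆) (hW : W = ⁅A + V, C⁆) :
    ad8 (A + V + B) W + ad8 (A + V - B) W + ad8 (A + V) W + ad8 B W ≠ 0 := by
  have hV' : V = cls 2 (et vv) := by
    rw [hV, hA, hB, cls_lie (by norm_num) (by norm_num) (mem_Gam_one _) (mem_Gam_one _),
      et_comm_et, comm_ab]
  have c0 : Cl 1 f0 C := ⟨f0_Md, mem_Gam_one _, hC⟩
  have c1 : Cl 2 (dl aa f0) ⁅A, C⁆ := by rw [hA]; exact c0.ad le_rfl aa
  have c2 : Cl 3 (dl vv f0) ⁅V, C⁆ := by rw [hV']; exact c0.adv le_rfl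
  have hW' : W = ⁅A, C⁆ + ⁅V, C⁆ := by rw [hW, add_lie]
  have key : ∀ g : Heis, Ok (tpart g) (ad8 (cls 1 (et g) + cls 2 (et vv)) W) := by
    intro g
    rw [hW', ad8_add]
    exact (Ok_add_pow (by norm_num) c1 g 5 (by norm_num) (by norm_num)).add
      (Ok_add_pow (by norm_num) c2 g 6 (by norm_num) (by norm_num))
  have k0 : Ok 0 (ad8 B W) := by
    rw [hW', ad8_add, hB]
    have := (Ok_pow (by norm_num) (by norm_num) c1 bb).add
      (Ok_pow (by norm_num) (by norm_num) c2 bb)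
    rwa [add_zero] at this
  have e1 : A + V + B = cls 1 (et (aa * bb)) + cls 2 (et vv) := by
    rw [← et_mul, cls_mul (mem_Gam_one _) (mem_Gam_one _), hA, hB, hV']; abel
  have e2 : A + V - B = cls 1 (et (aa * bb⁻¹)) + cls 2 (et vv) := by
    rw [← et_mul, cls_mul (mem_Gam_one _) (mem_Gam_one _), ← et_inv, cls_inv (mem_Gam_one _),
      hA, hB, hV']; abel
  have e3 : A + V = cls 1 (et aa) + cls 2 (et vv) := by rw [hA, hV']
  have k1 := (((key (aa * bb)).add (key (aa * bb⁻¹))).add (key aa)).add k0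
  rw [← e1, ← e2, ← e3] at k1
  apply k1.ne_zero
  intro h0
  have h1 := congrFun h0 1
  revert h1
  decide +kernel

end BurnLie
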