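import Mathlib

/-!
# The witness: the Heisenberg group over `ℤ/9` acting on functions with values in `𝔽_3`
-/

namespace BurnLie

/-- The Heisenberg group over `ℤ/9`. -/
@[ext]
structure Heis where
  i : ZMod 9
  j : ZMod 9
  k : ZMod 9
deriving DecidableEq

namespace Heis

instance : Mul Heis := ⟨fun x y => ⟨x.i + y.i, x.j + y.j, x.k + y.k - x.j * y.i⟩⟩
instance : One Heis := ⟨⟨0, 0, 0⟩⟩
instance : Inv Heis := ⟨fun x => ⟨-x.i, -x.j, -x.k - x.j * x.i⟩⟩

@[simp] theorem mul_i (x y : Heis) : (x * y).i = x.i + y.i := rfl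
@[simp] theorem mul_j (x y : Heis) : (x * y).j = x.j + y.j := rfl
@[simp] theorem mul_k (x y : Heis) : (x * y).k = x.k + y.k - x.j * y.i := rfl
@[simp] theorem one_i : (1 : Heis).i = 0 := rfl
@[simp] theorem one_j : (1 : Heis).j = 0 := rfl
@[simp] theorem one_k : (1 : Heis).k = 0 := rfl
@[simp] theorem inv_i (x : Heis) : (x⁻¹).i = -x.i := rfl
@[simp] theorem inv_j (x : Heis) : (x⁻¹).j = -x.j := rfl
@[simp] theorem inv_k (x : Heis) : (x⁻¹).k = -x.k - x.j * x.i := rfl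

instance : Group Heis where
  mul_assoc x y z := by ext <;> simp <;> ring
  one_mul x := by ext <;> simp
  mul_one x := by ext <;> simp
  inv_mul_cancel x := by ext <;> simp <;> ring

theorem cube (h : Heis) : h ^ 3 = ⟨3 * h.i, 3 * h.j, 3 * (h.k - h.i * h.j)⟩ := by
  ext <;> simp [pow_succ] <;> ring

theorem pow_nine (h : Heis) : h ^ 9 = 1 := by
  have h9 : (9 : ZMod 9) = 0 := by decide
  have e : h ^ 9 = (h ^ 3) ^ 3 := by rw [← pow_mul]
  rw [e, cube (h ^ 3), cube h]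
  ext
  · simp only [one_i]; linear_combination h.i * h9
  · simp only [one_j]; linear_combination h.j * h9
  · simp only [one_k]; linear_combination (h.k - h.i * h.j - 3 * h.i * h.j) * h9

end Heis

/-- Functions on `Heis` with values in `𝔽_3`. -/
abbrev Fn := Heis → ZMod 3

/-- Translation. -/
def tr (h : Heis) (m : Fn) : Fn := fun x => m (x * h)

/-- The difference operator `(h - 1)`. -/
def dl (h : Heis) (m : Fn) : Fn := fun x => m (x * h) - m x

theorem tr_mul (g h : Heis) (m : Fn) : tr g (tr h m) = tr (g * h) m := by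
  funext x; simp [tr, mul_assoc]

theorem tr_one (m : Fn) : tr 1 m = m := by
  funext x; simp [tr]

/-- Functions of degree less than `n`: all products of `n` difference operators vanish. -/
def Qf : ℕ → AddSubgroup Fn
  | 0 => ⊥
  | n + 1 =>
    { carrier := {m | ∀ h, dl h m ∈ Qf n}
      zero_mem' := by
        intro h
        have : dl h 0 = 0 := by funext x; simp [dl]
        rw [this]; exact zero_mem _
      add_mem' := by
        intro a b ha hb h
        have : dl h (a + b) = dl h a + dl h b := by funext x; simp [dl]; ring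
        rw [this]; exact add_mem (ha h) (hb h)
      neg_mem' := by
        intro a ha h
        have : dl h (-a) = - dl h a := by funext x; simp [dl]; ring
        rw [this]; exact neg_mem (ha h) }

theorem mem_Qf_succ {n : ℕ} {m : Fn} : m ∈ Qf (n + 1) ↔ ∀ h, dl h m ∈ Qf n := Iff.rfl

theorem Qf_succ_le (n : ℕ) : Qf n ≤ Qf (n + 1) := by
  induction n with
  | zero =>
    intro m hm h
    have : m = 0 := hm
    subst this
    have : dl h 0 = 0 := by funext x; simp [dl]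
    rw [this]; exact zero_mem _
  | succ n ih => intro m hm h; exact ih (hm h)

theorem Qf_mono {a b : ℕ} (h : a ≤ b) : Qf a ≤ Qf b := by
  induction h with
  | refl => exact le_rfl
  | step _ ih => exact ih.trans (Qf_succ_le _)

theorem tr_mem {n : ℕ} (g : Heis) {m : Fn} (hm : m ∈ Qf n) : tr g m ∈ Qf n := by
  induction n generalizing m with
  | zero =>
    have : m = 0 := hm
    subst this
    have : tr g 0 = 0 := by funext x; simp [tr]
    rw [this]; exact zero_mem _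
  | succ n ih =>
    intro h
    have : dl h (tr g m) = tr g (dl (g⁻¹ * h * g) m) := by
      funext x; simp [dl, tr, mul_assoc]
    rw [this]
    exact ih (hm _)

theorem mul_mem_Qf (N : ℕ) : ∀ (a b : ℕ) (f g : Fn), f ∈ Qf a → g ∈ Qf b → a + b ≤ N + 1 →
    f * g ∈ Qf N := by
  induction N with
  | zero =>
    intro a b f g hf hg hab
    rcases Nat.eq_zero_or_pos a with rfl | ha
    · have : f = 0 := hf
      rw [this, zero_mul]; exact zero_mem _
    · have : b = 0 := by omega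
      subst this
      have : g = 0 := hg
      rw [this, mul_zero]; exact zero_mem _
  | succ N ih =>
    intro a b f g hf hg hab
    rcases Nat.eq_zero_or_pos a with rfl | ha
    · have : f = 0 := hf
      rw [this, zero_mul]; exact zero_mem _
    rcases Nat.eq_zero_or_pos b with rfl | hb
    · have : g = 0 := hg
      rw [this, mul_zero]; exact zero_mem _
    obtain ⟨a, rfl⟩ : ∃ k, a = k + 1 := ⟨a - 1, by omega⟩
    obtain ⟨b, rfl⟩ : ∃ k, b = k + 1 := ⟨b - 1, by omega⟩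
    intro h
    have : dl h (f * g) = dl h f * tr h g + f * dl h g := by
      funext x; simp [dl, tr]; ring
    rw [this]
    exact add_mem (ih a (b + 1) _ _ (hf h) (tr_mem h hg) (by omega))
      (ih (a + 1) b _ _ hf (hg h) (by omega))

/-- The commutator of two elements lowers the degree by two. -/
theorem dl_comm_mem {n : ℕ} {m : Fn} (hm : m ∈ Qf (n + 2)) (x y : Heis) :
    dl (x * y * x⁻¹ * y⁻¹) m ∈ Qf n := by
  set m' := tr (y * x)⁻¹ m with hm'
  have h1 : m' ∈ Qf (n + 2) := tr_mem _ hm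
  have h2 : dl x (dl y m') - dl y (dl x m') ∈ Qf n :=
    sub_mem ((h1 y) x) ((h1 x) y)
  have : dl (x * y * x⁻¹ * y⁻¹) m = dl x (dl y m') - dl y (dl x m') := by
    funext z
    simp only [dl, hm', tr, Pi.sub_apply, mul_inv_rev]
    simp only [mul_assoc, mul_inv_cancel, mul_one, mul_inv_cancel_left]
    ring
  rw [this]
  exact h2

/-- Central elements lower the degree by two. -/
theorem dl_central_mem {n : ℕ} {m : Fn} (hm : m ∈ Qf (n + 2)) {z : Heis} (hi : z.i = 0)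
    (hj : z.j = 0) : dl z m ∈ Qf n := by
  have : z = (⟨z.k, 0, 0⟩ : Heis) * ⟨0, 1, 0⟩ * (⟨z.k, 0, 0⟩ : Heis)⁻¹ * (⟨0, 1, 0⟩ : Heis)⁻¹ := by
    ext <;> simp [hi, hj]
  rw [this]
  exact dl_comm_mem hm _ _

/-! ### Digits -/

/-- The lower base-3 digit. -/
def d0 (x : ZMod 9) : ZMod 3 := (x.val : ZMod 3)
/-- The upper base-3 digit. -/
def d1 (x : ZMod 9) : ZMod 3 := ((x.val / 3 : ℕ) : ZMod 3)

theorem d0_add : ∀ x y : ZMod 9, d0 (x + y) = d0 x + d0 y := by decide +kernel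
theorem d0_mul : ∀ x y : ZMod 9, d0 (x * y) = d0 x * d0 y := by decide +kernel
theorem d0_sub : ∀ x y : ZMod 9, d0 (x - y) = d0 x - d0 y := by decide +kernel
theorem d1_add : ∀ x y : ZMod 9, d1 (x + y) = d1 x + d1 y + (d0 x - d0 x * d0 x) * d0 y +
    d0 x * (d0 y - d0 y * d0 y) := by decide +kernel
theorem d1_mul : ∀ c x : ZMod 9, d1 (c * x) = d1 c * d0 x + d0 c * d1 x +
    (d0 x - d0 x * d0 x) * (d0 c - d0 c * d0 c) := by decide +kernel
theorem d1_three : ∀ x y : ZMod 9, d1 (x + 3 * y) = d1 x + d0 y := by decide +kernel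
theorem d0_three : ∀ x y : ZMod 9, d0 (x + 3 * y) = d0 x := by decide +kernel

def I0 : Fn := fun x => d0 x.i
def I1 : Fn := fun x => d1 x.i
def J0 : Fn := fun x => d0 x.j
def J1 : Fn := fun x => d1 x.j
def K0 : Fn := fun x => d0 x.k
def K1 : Fn := fun x => d1 x.k

/-- Constant functions. -/
def cst (c : ZMod 3) : Fn := fun _ => c

theorem cst_mem (c : ZMod 3) : cst c ∈ Qf 1 := by
  intro h
  have : dl h (cst c) = 0 := by funext x; simp [dl, cst]
  rw [this]; exact zero_mem _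

theorem smul_mem {n : ℕ} (c : ZMod 3) {f : Fn} (hf : f ∈ Qf n) : cst c * f ∈ Qf n :=
  mul_mem_Qf n 1 n _ _ (cst_mem c) hf (by omega)

theorem I0_mem : I0 ∈ Qf 2 := by
  intro h
  have : dl h I0 = cst (d0 h.i) := by
    funext x; simp [dl, cst, I0, d0_add]
  rw [this]; exact cst_mem _

theorem J0_mem : J0 ∈ Qf 2 := by
  intro h
  have : dl h J0 = cst (d0 h.j) := by
    funext x; simp [dl, cst, J0, d0_add]
  rw [this]; exact cst_mem _

theorem I1_mem : I1 ∈ Qf 4 := by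
  intro h
  have : dl h I1 = cst (d1 h.i) + cst (d0 h.i) * (I0 - I0 * I0) +
      cst (d0 h.i - d0 h.i * d0 h.i) * I0 := by
    funext x; simp [dl, cst, I0, I1, d1_add]; ring
  rw [this]
  exact add_mem (add_mem (Qf_mono (by norm_num) (cst_mem _))
    (smul_mem _ (sub_mem (Qf_mono (by norm_num) I0_mem) (mul_mem_Qf 3 2 2 _ _ I0_mem I0_mem
      (by norm_num))))) (smul_mem _ (Qf_mono (by norm_num) I0_mem))

theorem J1_mem : J1 ∈ Qf 4 := by
  intro h
  have : dl h J1 = cst (d1 h.j) + cst (d0 h.j) * (J0 - J0 * J0) +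
      cst (d0 h.j - d0 h.j * d0 h.j) * J0 := by
    funext x; simp [dl, cst, J0, J1, d1_add]; ring
  rw [this]
  exact add_mem (add_mem (Qf_mono (by norm_num) (cst_mem _))
    (smul_mem _ (sub_mem (Qf_mono (by norm_num) J0_mem) (mul_mem_Qf 3 2 2 _ _ J0_mem J0_mem
      (by norm_num))))) (smul_mem _ (Qf_mono (by norm_num) J0_mem))

/-- The lower digit of the increment of the last coordinate. -/
def z0 (h : Heis) : Fn := cst (d0 h.k) + cst (d0 (-h.i)) * J0
/-- The upper digit of the increment of the last coordinate. -/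
def z1 (h : Heis) : Fn :=
  cst (d1 h.k) + (cst (d1 (-h.i)) * J0 + cst (d0 (-h.i)) * J1 +
    cst (d0 (-h.i) - d0 (-h.i) * d0 (-h.i)) * (J0 - J0 * J0)) +
    cst (d0 h.k - d0 h.k * d0 h.k) * (cst (d0 (-h.i)) * J0) +
    cst (d0 h.k) * (cst (d0 (-h.i)) * J0 - (cst (d0 (-h.i)) * J0) * (cst (d0 (-h.i)) * J0))

theorem JJ_mem : J0 * J0 ∈ Qf 3 := mul_mem_Qf 3 2 2 _ _ J0_mem J0_mem (by norm_num)

theorem z0_mem (h : Heis) : z0 h ∈ Qf 2 :=
  add_mem (Qf_mono (by norm_num) (cst_mem _)) (smul_mem _ J0_mem)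

theorem z1_mem (h : Heis) : z1 h ∈ Qf 4 := by
  have j0 : J0 ∈ Qf 4 := Qf_mono (by norm_num) J0_mem
  have jj : J0 * J0 ∈ Qf 4 := Qf_mono (by norm_num) JJ_mem
  have c : ∀ c, cst c ∈ Qf 4 := fun c => Qf_mono (by norm_num) (cst_mem c)
  refine add_mem (add_mem (add_mem (c _) (add_mem (add_mem (smul_mem _ j0) (smul_mem _ J1_mem))
    (smul_mem _ (sub_mem j0 jj)))) (smul_mem _ (smul_mem _ j0))) (smul_mem _ (sub_mem
      (smul_mem _ j0) ?_))
  exact mul_mem_Qf 4 2 2 _ _ (smul_mem _ J0_mem) (smul_mem _ J0_mem) (by norm_num)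

theorem K0_mem : K0 ∈ Qf 3 := by
  intro h
  have : dl h K0 = z0 h := by
    funext x
    simp only [dl, z0, cst, K0, J0, Heis.mul_k, Pi.add_apply, Pi.mul_apply]
    have e : x.k + h.k - x.j * h.i = x.k + (h.k + (-h.i) * x.j) := by ring
    rw [e, d0_add, d0_add, d0_mul]; ring
  rw [this]; exact z0_mem h

theorem K1_mem : K1 ∈ Qf 7 := by
  intro h
  have : dl h K1 = z1 h + (K0 - K0 * K0) * z0 h + K0 * (z0 h - z0 h * z0 h) := by
    funext x
    simp only [dl, z0, z1, cst, K1, K0, J0, J1, Heis.mul_k, Pi.add_apply, Pi.mul_apply,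
      Pi.sub_apply]
    have e : x.k + h.k - x.j * h.i = x.k + (h.k + (-h.i) * x.j) := by ring
    rw [e, d1_add, d1_add, d1_mul, d0_add, d0_mul]; ring
  rw [this]
  have a1 : K0 * K0 ∈ Qf 5 := mul_mem_Qf 5 3 3 _ _ K0_mem K0_mem (by norm_num)
  have a2 : (K0 - K0 * K0) * z0 h ∈ Qf 6 :=
    mul_mem_Qf 6 5 2 _ _ (sub_mem (Qf_mono (by norm_num) K0_mem) a1) (z0_mem h) (by norm_num)
  have a3 : z0 h * z0 h ∈ Qf 3 := mul_mem_Qf 3 2 2 _ _ (z0_mem h) (z0_mem h) (by norm_num)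
  have a4 : K0 * (z0 h - z0 h * z0 h) ∈ Qf 6 :=
    mul_mem_Qf 6 3 3 _ _ K0_mem (sub_mem (Qf_mono (by norm_num) (z0_mem h)) a3) (by norm_num)
  exact add_mem (add_mem (Qf_mono (by norm_num) (z1_mem h)) a2) a4

/-- The witness function. -/
def f0 : Fn := K0 * K1 * (I0 * J1 - I1 * J0)

theorem f0_mem : f0 ∈ Qf 13 := by
  have a1 : K0 * K1 ∈ Qf 9 := mul_mem_Qf 9 3 7 _ _ K0_mem K1_mem (by norm_num)
  have a2 : I0 * J1 ∈ Qf 5 := mul_mem_Qf 5 2 4 _ _ I0_mem J1_mem (by norm_num)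
  have a3 : I1 * J0 ∈ Qf 5 := mul_mem_Qf 5 4 2 _ _ I1_mem J0_mem (by norm_num)
  exact mul_mem_Qf 13 9 5 _ _ a1 (sub_mem a2 a3) (by norm_num)

theorem inner_sum (X : Heis) (a b c : ZMod 9) :
    f0 X + f0 (X * ⟨3 * a, 3 * b, 3 * c⟩) + f0 (X * ⟨3 * a, 3 * b, 3 * c⟩ * ⟨3 * a, 3 * b, 3 * c⟩) =
      - (K0 X * (d0 c - d0 a * J0 X) * (d0 b * I0 X - d0 a * J0 X)) := by
  have h3 : (3 : ZMod 3) = 0 := by decide
  have key : ∀ Y : Heis, f0 (Y * ⟨3 * a, 3 * b, 3 * c⟩) = K0 Y * (K1 Y + (d0 c - J0 Y * d0 a)) *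
      (I0 Y * (J1 Y + d0 b) - (I1 Y + d0 a) * J0 Y) := by
    intro Y
    have e : Y.k + 3 * c - Y.j * (3 * a) = Y.k + 3 * (c - Y.j * a) := by ring
    simp only [f0, Pi.mul_apply, Pi.sub_apply, I0, I1, J0, J1, K0, K1, Heis.mul_i, Heis.mul_j,
      Heis.mul_k, e, d0_three, d1_three, d0_sub, d0_mul]
  have k0 : K0 (X * ⟨3 * a, 3 * b, 3 * c⟩) = K0 X := by
    have e : X.k + 3 * c - X.j * (3 * a) = X.k + 3 * (c - X.j * a) := by ring
    simp only [K0, Heis.mul_k, e, d0_three]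
  have k1 : K1 (X * ⟨3 * a, 3 * b, 3 * c⟩) = K1 X + (d0 c - J0 X * d0 a) := by
    have e : X.k + 3 * c - X.j * (3 * a) = X.k + 3 * (c - X.j * a) := by ring
    simp only [K1, J0, Heis.mul_k, e, d1_three, d0_sub, d0_mul]
  have i0 : I0 (X * ⟨3 * a, 3 * b, 3 * c⟩) = I0 X := by
    simp only [I0, Heis.mul_i, d0_three]
  have i1 : I1 (X * ⟨3 * a, 3 * b, 3 * c⟩) = I1 X + d0 a := by
    simp only [I1, Heis.mul_i, d1_three]
  have j0 : J0 (X * ⟨3 * a, 3 * b, 3 * c⟩) = J0 X := by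
    simp only [J0, Heis.mul_j, d0_three]
  have j1 : J1 (X * ⟨3 * a, 3 * b, 3 * c⟩) = J1 X + d0 b := by
    simp only [J1, Heis.mul_j, d1_three]
  rw [key (X * ⟨3 * a, 3 * b, 3 * c⟩), key X, k0, k1, i0, i1, j0, j1]
  simp only [f0, Pi.mul_apply, Pi.sub_apply]
  linear_combination (K0 X * K1 X * (I0 X * J1 X - I1 X * J0 X) +
    K0 X * (d0 c - J0 X * d0 a) * (I0 X * J1 X - I1 X * J0 X) +
    K0 X * K1 X * (I0 X * d0 b - d0 a * J0 X) +
    2 * K0 X * (d0 c - J0 X * d0 a) * (I0 X * d0 b - d0 a * J0 X)) * h3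

theorem f0_sum (x h : Heis) : ∑ s ∈ Finset.range 9, f0 (x * h ^ s) = 0 := by
  have h3 : (3 : ZMod 3) = 0 := by decide
  have e3 := Heis.cube h
  have s3 : x * h ^ 3 = x * h ^ 3 := rfl
  have s4 : x * h ^ 4 = x * h * h ^ 3 := by rw [mul_assoc, ← pow_succ']
  have s5 : x * h ^ 5 = x * h ^ 2 * h ^ 3 := by rw [mul_assoc, ← pow_add]
  have s6 : x * h ^ 6 = x * h ^ 3 * h ^ 3 := by rw [mul_assoc, ← pow_add]
  have s7 : x * h ^ 7 = x * h * h ^ 3 * h ^ 3 := by
    rw [mul_assoc, mul_assoc, ← pow_add, ← pow_succ']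
  have s8 : x * h ^ 8 = x * h ^ 2 * h ^ 3 * h ^ 3 := by
    rw [mul_assoc, mul_assoc, ← pow_add, ← pow_add]
  have r0 := inner_sum x h.i h.j (h.k - h.i * h.j)
  have r1 := inner_sum (x * h) h.i h.j (h.k - h.i * h.j)
  have r2 := inner_sum (x * h ^ 2) h.i h.j (h.k - h.i * h.j)
  rw [← e3] at r0 r1 r2
  have e : ∑ s ∈ Finset.range 9, f0 (x * h ^ s) =
      (f0 x + f0 (x * h ^ 3) + f0 (x * h ^ 3 * h ^ 3)) +
      (f0 (x * h) + f0 (x * h * h ^ 3) + f0 (x * h * h ^ 3 * h ^ 3)) +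
      (f0 (x * h ^ 2) + f0 (x * h ^ 2 * h ^ 3) + f0 (x * h ^ 2 * h ^ 3 * h ^ 3)) := by
    simp only [Finset.sum_range_succ, Finset.sum_range_zero, pow_zero, pow_one, mul_one, s4, s5,
      s6, s7, s8]
    ring
  rw [e, r0, r1, r2]
  have k2 : K0 (x * h ^ 2) = K0 x + 2 * d0 h.k - d0 h.i * d0 h.j - 2 * (J0 x * d0 h.i) := by
    have : (x * h ^ 2).k = (x.k + h.k + h.k) - (h.j * h.i) - (x.j * h.i + x.j * h.i) := by
      simp [pow_succ]; ring
    simp only [K0, this, d0_sub, d0_add, d0_mul, J0]; ring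
  have k1 : K0 (x * h) = K0 x + d0 h.k - J0 x * d0 h.i := by
    simp only [K0, Heis.mul_k, d0_sub, d0_add, d0_mul, J0]
  have j1 : J0 (x * h) = J0 x + d0 h.j := by simp only [J0, Heis.mul_j, d0_add]
  have j2 : J0 (x * h ^ 2) = J0 x + 2 * d0 h.j := by
    simp only [J0, pow_succ, pow_zero, one_mul, Heis.mul_j, d0_add]; ring
  have i1 : I0 (x * h) = I0 x + d0 h.i := by simp only [I0, Heis.mul_i, d0_add]
  have i2 : I0 (x * h ^ 2) = I0 x + 2 * d0 h.i := by
    simp only [I0, pow_succ, pow_zero, one_mul, Heis.mul_i, d0_add]; ring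
  rw [k1, k2, j1, j2, i1, i2, d0_sub, d0_mul]
  set a := d0 h.i
  set b := d0 h.j
  set c := d0 h.k
  set k := K0 x
  set i := I0 x
  set j := J0 x
  linear_combination (- ((b * i - a * j) * (k * (c - a * b - a * j) - k * (a * b) +
    (c - a * b - a * j) ^ 2 - (c - a * b - a * j) * (a * b) - (a * b) ^ 2))) * h3

end BurnLie
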