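import Pool.Agent.H77R2.Poly

/-!
# Taylor coefficients of `n ↦ (y x)^n x^{-n}` and the ninth power
-/

namespace BurnLie

open Subgroup
open scoped commutatorElement

variable {G : Type*} [Group G]

/-- `D x y = y⁻¹ (x y x⁻¹)`, a commutator of `x` and `y`. -/
def D (x y : G) : G := y⁻¹ * (x * y * x⁻¹)

theorem D_eq (x y : G) : D x y = ⁅y⁻¹, x⁆ := by
  simp only [D, commutatorElement_def]; group

theorem D_mem {m : ℕ} (x : G) {y : G} (hy : y ∈ Gam G m) : D x y ∈ Gam G (m + 1) := by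
  rw [D_eq]; exact Gam_comm (inv_mem hy) (mem_Gam_one x)

theorem D_mem' {i j : ℕ} {x : G} (hx : x ∈ Gam G i) {y : G} (hy : y ∈ Gam G j) :
    D x y ∈ Gam G (i + j) := by
  rw [D_eq]; exact Gam_comm' (inv_mem hy) hx (by omega)

theorem Dit_mem {m : ℕ} (x : G) {y : G} (hy : y ∈ Gam G m) (j : ℕ) :
    (D x)^[j] y ∈ Gam G (m + j) := by
  induction j with
  | zero => exact hy
  | succ j ih => rw [Function.iterate_succ_apply']; exact D_mem x ih

/-- The class of `D x y` is the Lie bracket of the classes of `x` and `y`. -/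
theorem cls_D {i j : ℕ} (hi : 1 ≤ i) (hj : 1 ≤ j) {x y : G} (hx : x ∈ Gam G i)
    (hy : y ∈ Gam G j) {k : ℕ} (hk : k = i + j) : cls k (D x y) = ⁅cls i x, cls j y⁆ := by
  rw [D_eq, cls_lie' hj hi (inv_mem hy) hx (by omega), cls_inv hy, neg_lie, ← lie_skew, neg_neg]

/-- Conjugates of `y` by the powers of `x`. -/
def cs (x y : G) : ℕ → G := fun n => x ^ n * y * (x ^ n)⁻¹

theorem dif_cs (x y : G) : dif (cs x y) = cs x (D x y) := by
  funext n; simp only [dif, cs, D]; group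

theorem dif_cs_iter (x y : G) (j : ℕ) : dif^[j] (cs x y) = cs x ((D x)^[j] y) := by
  induction j generalizing y with
  | zero => rfl
  | succ j ih => rw [Function.iterate_succ_apply, dif_cs, ih, Function.iterate_succ_apply]

theorem cs_mem {m : ℕ} (x : G) {y : G} (hy : y ∈ Gam G m) : cs x y ∈ P G m := by
  intro j n
  rw [dif_cs_iter]
  exact conj_mem' _ (Dit_mem x hy j)

/-- The sequence `n ↦ (y x)^n x^{-n}`. -/
def ps (x y : G) : ℕ → G := fun n => (y * x) ^ n * (x ^ n)⁻¹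

theorem dif_ps (x y : G) : dif (ps x y) = cs x y := by
  funext n
  simp only [dif, ps, cs]
  rw [pow_succ (y * x) n, pow_succ x n]
  group

theorem ps_mem {e : ℕ} (x : G) {y : G} (hy : y ∈ Gam G (e + 1)) : ps x y ∈ P G e := by
  rw [mem_P_iff, dif_ps]
  refine ⟨fun n => ?_, cs_mem x hy⟩
  induction n with
  | zero => simp [ps]
  | succ n ih =>
    have h1 : ps x y (n + 1) = ps x y n * cs x y n := by
      rw [← dif_ps]; simp [dif]
    rw [h1]
    exact mul_mem ih (Gam_anti (Nat.le_succ e) (conj_mem' _ hy))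

theorem dif_ps_iter (x y : G) (j : ℕ) : (dif^[j + 1] (ps x y)) 0 = (D x)^[j] y := by
  rw [Function.iterate_succ_apply, dif_ps, dif_cs_iter]
  simp [cs]

/-- Binomial sequences `n ↦ a ^ (n choose j)`. -/
def bs (a : G) (j : ℕ) : ℕ → G := fun n => a ^ n.choose j

theorem dif_bs_succ (a : G) (j : ℕ) : dif (bs a (j + 1)) = bs a j := by
  funext n
  simp only [dif, bs]
  have : (n + 1).choose (j + 1) = n.choose (j + 1) + n.choose j := by
    rw [Nat.choose_succ_succ', Nat.add_comm]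
  rw [this, pow_add, inv_mul_cancel_left]

theorem dif_bs_zero (a : G) : dif (bs a 0) = 1 := by
  funext n; simp [dif, bs]

theorem dif_iter_one (i : ℕ) : dif^[i] (1 : ℕ → G) = 1 := by
  induction i with
  | zero => rfl
  | succ i ih => rw [Function.iterate_succ_apply, dif_one, ih]

theorem dif_bs_iter (a : G) {i j : ℕ} (h : j < i) : dif^[i] (bs a j) = 1 := by
  induction j generalizing i with
  | zero =>
    obtain ⟨i, rfl⟩ : ∃ k, i = k + 1 := ⟨i - 1, by omega⟩
    rw [Function.iterate_succ_apply, dif_bs_zero, dif_iter_one]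
  | succ j ih =>
    obtain ⟨i, rfl⟩ : ∃ k, i = k + 1 := ⟨i - 1, by omega⟩
    rw [Function.iterate_succ_apply, dif_bs_succ, ih (by omega)]

theorem bs_mem {d j : ℕ} {a : G} (ha : a ∈ Gam G (d + j)) : bs a j ∈ P G d := by
  induction j generalizing d with
  | zero =>
    rw [mem_P_iff, dif_bs_zero]
    exact ⟨fun n => pow_mem ha _, one_mem_P _⟩
  | succ j ih =>
    rw [mem_P_iff, dif_bs_succ]
    exact ⟨fun n => pow_mem (Gam_anti (by omega) ha) _, ih (by rwa [show d + 1 + j = d + (j + 1) by ring])⟩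

theorem dif_iter_eq (g : ℕ → G) (j n : ℕ) (h : ∀ i < n + j, g i = 1) :
    (dif^[j] g) n = g (n + j) := by
  induction j generalizing g with
  | zero => rfl
  | succ j ih =>
    rw [Function.iterate_succ_apply, ih (dif g)]
    · simp only [dif]
      rw [h (n + j) (by omega), inv_one, one_mul, add_assoc]
    · intro i hi
      simp only [dif]
      rw [h i (by omega), h (i + 1) (by omega), inv_one, one_mul]

theorem iter_mem {d j : ℕ} {g : ℕ → G} (hg : g ∈ P G d) : dif^[j] g ∈ P G (d + j) := by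
  induction j generalizing g d with
  | zero => exact hg
  | succ j ih =>
    rw [Function.iterate_succ_apply, show d + (j + 1) = d + 1 + j by ring]
    exact ih (mem_P_iff.1 hg).2

/-- Additivity of the `j`-th difference modulo deeper terms. -/
theorem dif_iter_mul {M : ℕ} (hM : Gam G M = ⊥) {d : ℕ} (hd : 1 ≤ d) {g h : ℕ → G}
    (hg : g ∈ P G d) (hh : h ∈ P G d) (j : ℕ) :
    ∃ r ∈ P G (d + j + 1), dif^[j] (g * h) = dif^[j] g * dif^[j] h * r := by
  have H := pall hM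
  induction j with
  | zero => exact ⟨1, one_mem_P _, by simp⟩
  | succ j ih =>
    obtain ⟨r, hr, e⟩ := ih
    rw [Function.iterate_succ_apply', e, dif_mul, dif_mul, Function.iterate_succ_apply',
      Function.iterate_succ_apply']
    set A := dif^[j] g
    set B := dif^[j] h
    have hA : A ∈ P G (d + j) := iter_mem hg
    have hB : B ∈ P G (d + j) := iter_mem hh
    have hA1 := (mem_P_iff.1 hA).2
    have hB1 := (mem_P_iff.1 hB).2
    have hr1 := (mem_P_iff.1 hr).2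
    set s := (dif B)⁻¹ * ⁅(dif A)⁻¹, B⁻¹⁆ * dif B with hs
    have hs' : s ∈ P G (d + j + 2) := by
      apply H.conj' (Nat.zero_le _) (Nat.zero_le _) hB1
      exact P_anti (by omega) (H.comm _ _ (Nat.zero_le _) (Nat.zero_le _) _ _
        ((H.grp _ (Nat.zero_le _)).inv _ hA1) ((H.grp _ (Nat.zero_le _)).inv _ hB))
    set X := dif A * dif B * s with hX
    have hX' : X ∈ P G (d + j + 1) :=
      (H.grp _ (Nat.zero_le _)).mul _ _ ((H.grp _ (Nat.zero_le _)).mul _ _ hA1 hB1)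
        (P_anti (by omega) hs')
    refine ⟨s * ⁅X⁻¹, r⁻¹⁆ * dif r, ?_, ?_⟩
    · have G2 := H.grp (d + j + 2) (Nat.zero_le _)
      refine G2.mul _ _ (G2.mul _ _ hs' ?_) (P_anti (by omega) hr1)
      exact P_anti (by omega) (H.comm _ _ (Nat.zero_le _) (Nat.zero_le _) _ _
        ((H.grp _ (Nat.zero_le _)).inv _ hX') ((H.grp _ (Nat.zero_le _)).inv _ hr))
    · have e1 : B⁻¹ * dif A * B * dif B = X := by
        rw [hX, hs]; simp only [commutatorElement_def]; group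
      rw [e1]
      have e2 : dif A * dif B = X * s⁻¹ := by rw [hX]; group
      rw [e2]; simp only [commutatorElement_def]; group

/-- One step of the extraction of Taylor coefficients. -/
theorem taylor_step {M : ℕ} (hM : Gam G M = ⊥) {d N : ℕ} (hd : 1 ≤ d) (hN : M ≤ d + N + 1)
    {g : ℕ → G} (hg : g ∈ P G d) (j : ℕ) (hjN : j < N) (h : ∀ i < j, g i = 1) :
    g j ∈ Gam G (d + j) ∧ bs (g j)⁻¹ j * g ∈ P G d ∧ (∀ i < j + 1, (bs (g j)⁻¹ j * g) i = 1) ∧
      (dif^[N] (bs (g j)⁻¹ j * g)) 0 = (dif^[N] g) 0 := by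
  have h1 : g j ∈ Gam G (d + j) := by
    have := dif_iter_eq g j 0 (by simpa using h)
    rw [zero_add] at this
    rw [← this]
    exact hg j 0
  have hb : bs (g j)⁻¹ j ∈ P G d := bs_mem (inv_mem h1)
  refine ⟨h1, ((pall hM).grp _ (Nat.zero_le _)).mul _ _ hb hg, ?_, ?_⟩
  · intro i hi
    rcases Nat.lt_succ_iff_lt_or_eq.1 hi with hi | rfl
    · simp [bs, h i hi, Nat.choose_eq_zero_of_lt hi]
    · simp [bs]
  · obtain ⟨r, hr, e⟩ := dif_iter_mul hM hd hb hg N
    rw [e, dif_bs_iter _ hjN, eq_one_of_mem_P hM hN hr]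
    simp

/-- The third Taylor coefficient of `n ↦ (y x)^n x^{-n}`. -/
def p3 (x y : G) : G := ((D x y) ^ 3)⁻¹ * (y⁻¹ * D x y * y) * (D x y) ^ 2 * D x (D x y)

theorem p3_formula (x y : G) :
    (((y ^ 2)⁻¹ * ps x y 2) ^ 3)⁻¹ * ((y ^ 3)⁻¹ * ps x y 3) = p3 x y := by
  simp only [ps, p3, D, pow_succ, pow_zero, one_mul]
  group

/-- **The ninth power** in nilpotent groups of exponent nine. -/
theorem nine {k : ℕ} (hk : 2 ≤ k) (hM : Gam G (k + 9) = ⊥) (h9 : ∀ g : G, g ^ 9 = 1)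
    (x : G) {y : G} (hy : y ∈ Gam G k) :
    ∃ d ∈ Gam G (k + 5), p3 x y ^ 3 * d ^ 3 * (D x)^[8] y = 1 := by
  obtain ⟨e, rfl⟩ : ∃ e, k = e + 1 := ⟨k - 1, by omega⟩
  have he : 1 ≤ e := by omega
  have hp : ps x y ∈ P G e := ps_mem x hy
  have hN : e + 1 + 9 ≤ e + 9 + 1 := by omega
  have T0 := taylor_step (N := 9) hM he hN hp 0 (by norm_num) (by simp)
  have h00 : ps x y 0 = 1 := by simp [ps]
  -- the zeroth coefficient is trivial
  have T1 := taylor_step (N := 9) hM he hN hp 1 (by norm_num)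
    (by intro i hi; interval_cases i; exact h00)
  set g1 := bs (ps x y 1)⁻¹ 1 * ps x y with hg1
  have T2 := taylor_step (N := 9) hM he hN T1.2.1 2 (by norm_num) T1.2.2.1
  set g2 := bs (g1 2)⁻¹ 2 * g1 with hg2
  have T3 := taylor_step (N := 9) hM he hN T2.2.1 3 (by norm_num) T2.2.2.1
  set g3 := bs (g2 3)⁻¹ 3 * g2 with hg3
  have T4 := taylor_step (N := 9) hM he hN T3.2.1 4 (by norm_num) T3.2.2.1
  set g4 := bs (g3 4)⁻¹ 4 * g3 with hg4
  have T5 := taylor_step (N := 9) hM he hN T4.2.1 5 (by norm_num) T4.2.2.1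
  set g5 := bs (g4 5)⁻¹ 5 * g4 with hg5
  have T6 := taylor_step (N := 9) hM he hN T5.2.1 6 (by norm_num) T5.2.2.1
  set g6 := bs (g5 6)⁻¹ 6 * g5 with hg6
  have T7 := taylor_step (N := 9) hM he hN T6.2.1 7 (by norm_num) T6.2.2.1
  set g7 := bs (g6 7)⁻¹ 7 * g6 with hg7
  have T8 := taylor_step (N := 9) hM he hN T7.2.1 8 (by norm_num) T7.2.2.1
  set g8 := bs (g7 8)⁻¹ 8 * g7 with hg8
  have e9 : g8 9 = (D x)^[8] y := by
    have h1 := dif_iter_eq g8 9 0 (by simpa using T8.2.2.1)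
    rw [zero_add] at h1
    rw [← h1, T8.2.2.2, T7.2.2.2, T6.2.2.2, T5.2.2.2, T4.2.2.2, T3.2.2.2, T2.2.2.2, T1.2.2.2,
      dif_ps_iter]
  have c2 : Nat.choose 9 2 = 9 * 4 := by decide
  have c3 : Nat.choose 9 3 = 9 * 9 + 3 := by decide
  have c4 : Nat.choose 9 4 = 9 * 14 := by decide
  have c5 : Nat.choose 9 5 = 9 * 14 := by decide
  have c6 : Nat.choose 9 6 = 9 * 9 + 3 := by decide
  have c7 : Nat.choose 9 7 = 9 * 4 := by decide
  have c8 : Nat.choose 9 8 = 9 := by decide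
  have p9 : ps x y 9 = 1 := by simp [ps, h9]
  have f1 : g1 9 = 1 := by simp [hg1, bs, p9, h9]
  have f2 : g2 9 = 1 := by
    rw [hg2]; simp only [Pi.mul_apply, bs, c2, pow_mul, h9, one_pow, f1, mul_one]
  have f3 : g3 9 = (g2 3 ^ 3)⁻¹ := by
    rw [hg3]; simp only [Pi.mul_apply, bs, c3, pow_add, pow_mul, h9, f2, mul_one, one_mul,
      inv_pow]
  have f4 : g4 9 = (g2 3 ^ 3)⁻¹ := by
    rw [hg4]; simp only [Pi.mul_apply, bs, c4, pow_mul, h9, one_pow, f3, one_mul]
  have f5 : g5 9 = (g2 3 ^ 3)⁻¹ := by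
    rw [hg5]; simp only [Pi.mul_apply, bs, c5, pow_mul, h9, one_pow, f4, one_mul]
  have f6 : g6 9 = (g5 6 ^ 3)⁻¹ * (g2 3 ^ 3)⁻¹ := by
    rw [hg6]; simp only [Pi.mul_apply, bs, c6, pow_add, pow_mul, h9, f5, one_mul, inv_pow]
  have f7 : g7 9 = (g5 6 ^ 3)⁻¹ * (g2 3 ^ 3)⁻¹ := by
    rw [hg7]; simp only [Pi.mul_apply, bs, c7, pow_mul, h9, one_pow, f6, one_mul]
  have f8 : g8 9 = (g5 6 ^ 3)⁻¹ * (g2 3 ^ 3)⁻¹ := by
    rw [hg8]; simp only [Pi.mul_apply, bs, c8, h9, f7, one_mul]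
  have q3 : g2 3 = p3 x y := by
    rw [← p3_formula]
    have k1 : ps x y 1 = y := by simp [ps]
    have k2 : g1 2 = (y ^ 2)⁻¹ * ps x y 2 := by
      rw [hg1]; simp [bs, k1]
    have k3 : g1 3 = (y ^ 3)⁻¹ * ps x y 3 := by
      rw [hg1]; simp [bs, k1]
    rw [hg2]
    simp only [Pi.mul_apply, bs, k2, k3]
    rw [show Nat.choose 3 2 = 3 by decide, inv_pow]
  refine ⟨g5 6, Gam_anti (by omega) T6.1, ?_⟩
  rw [← e9, f8, q3]
  group

end BurnLie
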