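import Pool.Agent.H77R2.Heis
import Pool.Agent.H77R2.Cls

/-!
# The witness group of exponent nine and class at most thirteen
-/

namespace BurnLie

open Subgroup
open scoped commutatorElement

/-- The complete wreath product `𝔽_3 ≀ Heis`. -/
@[ext]
structure Wr where
  m : Fn
  h : Heis

namespace Wr

instance : Mul Wr := ⟨fun u w => ⟨u.m + tr u.h w.m, u.h * w.h⟩⟩
instance : One Wr := ⟨⟨0, 1⟩⟩
instance : Inv Wr := ⟨fun u => ⟨-tr u.h⁻¹ u.m, u.h⁻¹⟩⟩

@[simp] theorem mul_m (u w : Wr) : (u * w).m = u.m + tr u.h w.m := rfl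
@[simp] theorem mul_h (u w : Wr) : (u * w).h = u.h * w.h := rfl
@[simp] theorem one_m : (1 : Wr).m = 0 := rfl
@[simp] theorem one_h : (1 : Wr).h = 1 := rfl
@[simp] theorem inv_m (u : Wr) : (u⁻¹).m = -tr u.h⁻¹ u.m := rfl
@[simp] theorem inv_h (u : Wr) : (u⁻¹).h = u.h⁻¹ := rfl

end Wr

theorem tr_add (h : Heis) (a b : Fn) : tr h (a + b) = tr h a + tr h b := rfl
theorem tr_neg (h : Heis) (a : Fn) : tr h (-a) = - tr h a := rfl
theorem tr_zero (h : Heis) : tr h 0 = 0 := rfl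
theorem dl_eq (h : Heis) (a : Fn) : dl h a = tr h a - a := rfl

instance : Group Wr where
  mul_assoc u v w := by
    ext1
    · simp [tr_add, tr_mul, add_assoc]
    · simp [mul_assoc]
  one_mul u := by ext1 <;> simp [tr_one]
  mul_one u := by ext1 <;> simp [tr_zero]
  inv_mul_cancel u := by ext1 <;> simp

/-- The functions used for the witness group. -/
def Md : AddSubgroup Fn where
  carrier := {m | m ∈ Qf 13 ∧ ∀ x h : Heis, ∑ s ∈ Finset.range 9, m (x * h ^ s) = 0}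
  zero_mem' := ⟨zero_mem _, by intro x h; simp⟩
  add_mem' := by
    rintro a b ⟨ha, ha'⟩ ⟨hb, hb'⟩
    refine ⟨add_mem ha hb, fun x h => ?_⟩
    simp only [Pi.add_apply, Finset.sum_add_distrib, ha' x h, hb' x h, add_zero]
  neg_mem' := by
    rintro a ⟨ha, ha'⟩
    refine ⟨neg_mem ha, fun x h => ?_⟩
    simp only [Pi.neg_apply, Finset.sum_neg_distrib, ha' x h, neg_zero]

theorem tr_mem_Md (g : Heis) {m : Fn} (hm : m ∈ Md) : tr g m ∈ Md := by
  refine ⟨tr_mem g hm.1, fun x h => ?_⟩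
  have h1 := hm.2 (x * g) (g⁻¹ * h * g)
  rw [← h1]
  apply Finset.sum_congr rfl
  intro s _
  simp only [tr]
  congr 1
  have : (g⁻¹ * h * g) ^ s = g⁻¹ * h ^ s * g := by
    have := conj_pow (i := s) (a := g⁻¹) (b := h)
    rwa [inv_inv] at this
  rw [this]
  group

theorem f0_Md : f0 ∈ Md := ⟨f0_mem, f0_sum⟩

/-- The witness group, a subgroup of the wreath product. -/
def QS : Subgroup Wr where
  carrier := {w | w.m ∈ Md}
  one_mem' := zero_mem Md
  mul_mem' := by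
    intro a b ha hb
    exact add_mem ha (tr_mem_Md _ hb)
  inv_mem' := by
    intro a ha
    exact neg_mem (tr_mem_Md _ ha)

/-- The witness group. -/
abbrev QG : Type := QS

theorem wr_pow (u : Wr) (n : ℕ) :
    (u ^ n).h = u.h ^ n ∧ (u ^ n).m = fun x => ∑ s ∈ Finset.range n, u.m (x * u.h ^ s) := by
  induction n with
  | zero =>
    refine ⟨by simp, ?_⟩
    funext x; simp
  | succ n ih =>
    rw [pow_succ]
    refine ⟨by rw [Wr.mul_h, ih.1, pow_succ], ?_⟩
    funext x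
    rw [Wr.mul_m, ih.1, ih.2, Finset.sum_range_succ]
    rfl

theorem QG_pow_nine (g : QG) : g ^ 9 = 1 := by
  apply Subtype.ext
  rw [Subgroup.coe_pow, Subgroup.coe_one]
  obtain ⟨h1, h2⟩ := wr_pow (g : Wr) 9
  ext1
  · rw [h2]
    funext x
    exact g.2.2 x _
  · rw [h1, Heis.pow_nine]
    rfl

/-- The filtration on the Heisenberg group. -/
def inZ (n : ℕ) (h : Heis) : Prop :=
  (2 ≤ n → h.i = 0 ∧ h.j = 0) ∧ (3 ≤ n → h = 1)

theorem inZ_one (n : ℕ) : inZ n 1 := ⟨fun _ => ⟨rfl, rfl⟩, fun _ => rfl⟩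

theorem inZ_mul {n : ℕ} {a b : Heis} (ha : inZ n a) (hb : inZ n b) : inZ n (a * b) :=
  ⟨fun h => by
    obtain ⟨h1, h2⟩ := ha.1 h
    obtain ⟨h3, h4⟩ := hb.1 h
    simp [h1, h2, h3, h4],
   fun h => by rw [ha.2 h, hb.2 h, mul_one]⟩

theorem inZ_inv {n : ℕ} {a : Heis} (ha : inZ n a) : inZ n a⁻¹ :=
  ⟨fun h => by
    obtain ⟨h1, h2⟩ := ha.1 h
    simp [h1, h2],
   fun h => by rw [ha.2 h, inv_one]⟩

theorem inZ_comm {n : ℕ} (hn : 1 ≤ n) {a : Heis} (ha : inZ n a) (b : Heis) :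
    inZ (n + 1) (a * b * a⁻¹ * b⁻¹) := by
  refine ⟨fun _ => by simp, fun h => ?_⟩
  obtain ⟨h1, h2⟩ := ha.1 (by omega)
  ext
  · simp [h1]
  · simp [h2]
  · simp [h1, h2]; ring

theorem dl_add (h : Heis) (a b : Fn) : dl h (a + b) = dl h a + dl h b := by
  funext x; simp [dl]; ring

/-- The central series of the witness group. -/
def KS (n : ℕ) : Subgroup QG where
  carrier := {w | (w : Wr).m ∈ Qf (14 - (n + 1)) ∧ inZ (n + 1) (w : Wr).h}
  one_mem' := ⟨zero_mem _, inZ_one _⟩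
  mul_mem' := by
    rintro a b ⟨ha, ha'⟩ ⟨hb, hb'⟩
    exact ⟨add_mem ha (tr_mem _ hb), inZ_mul ha' hb'⟩
  inv_mem' := by
    rintro a ⟨ha, ha'⟩
    exact ⟨neg_mem (tr_mem _ ha), inZ_inv ha'⟩

theorem comm_m (u w : Wr) : (u * w * u⁻¹ * w⁻¹).m =
    dl u.h w.m - dl w.h u.m - dl (u.h * w.h * u.h⁻¹ * w.h⁻¹) (w.m + tr w.h u.m) := by
  have e : u * w * u⁻¹ * w⁻¹ = (u * w) * (w * u)⁻¹ := by group
  rw [e]
  simp only [Wr.mul_m, Wr.inv_m, Wr.mul_h, tr_neg, dl_eq, tr_mul]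
  have : u.h * w.h * (w.h * u.h)⁻¹ = u.h * w.h * u.h⁻¹ * w.h⁻¹ := by group
  rw [this]
  abel

theorem KS_desc : Subgroup.IsDescendingCentralSeries KS := by
  constructor
  · rw [eq_top_iff]
    intro w _
    refine ⟨w.2.1, fun h => absurd h (by norm_num), fun h => absurd h (by norm_num)⟩
  · rintro u n ⟨hu, hu'⟩ w
    have hw : (w : Wr).m ∈ Qf 13 := w.2.1
    have hu13 : (u : Wr).m ∈ Qf 13 := u.2.1
    refine ⟨?_, ?_⟩
    · change ((u : Wr) * (w : Wr) * (u : Wr)⁻¹ * (w : Wr)⁻¹).m ∈ _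
      rw [comm_m]
      have hB : (w : Wr).m + tr (w : Wr).h (u : Wr).m ∈ Qf 13 := add_mem hw (tr_mem _ hu13)
      have hz := inZ_comm (by omega) hu' (w : Wr).h
      have h1 : dl (w : Wr).h (u : Wr).m ∈ Qf (14 - (n + 1 + 1)) := by
        rcases Nat.lt_or_ge n 13 with hn | hn
        · obtain ⟨k, hk⟩ : ∃ k, 14 - (n + 1) = k + 1 := ⟨14 - (n + 1) - 1, by omega⟩
          rw [hk] at hu
          rw [show 14 - (n + 1 + 1) = k by omega]
          exact hu _
        · rw [show 14 - (n + 1) = 0 by omega] at hu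
          have : (u : Wr).m = 0 := hu
          rw [this, dl_eq, tr_zero, sub_zero]
          exact zero_mem _
      have h2 : dl (u : Wr).h (w : Wr).m ∈ Qf (14 - (n + 1 + 1)) := by
        rcases Nat.eq_zero_or_pos n with rfl | hn
        · exact hw _
        rcases Nat.lt_or_ge n 2 with hn2 | hn2
        · have : n = 1 := by omega
          subst this
          obtain ⟨h1, h2⟩ := hu'.1 (by norm_num)
          exact Qf_mono (by norm_num) (dl_central_mem (n := 11) hw h1 h2)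
        · rw [hu'.2 (by omega), dl_eq, tr_one, sub_self]
          exact zero_mem _
      have h3 : dl ((u : Wr).h * (w : Wr).h * (u : Wr).h⁻¹ * (w : Wr).h⁻¹)
          ((w : Wr).m + tr (w : Wr).h (u : Wr).m) ∈ Qf (14 - (n + 1 + 1)) := by
        rcases Nat.eq_zero_or_pos n with rfl | hn
        · exact Qf_mono (by norm_num) (dl_comm_mem (n := 11) hB _ _)
        · rw [hz.2 (by omega), dl_eq, tr_one, sub_self]
          exact zero_mem _
      exact sub_mem (sub_mem h2 h1) h3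
    · exact inZ_comm (by omega) hu' _

theorem QG_Gam14 : Gam QG 14 = ⊥ := by
  have h := Subgroup.descending_central_series_ge_lower KS KS_desc 13
  rw [eq_bot_iff]
  intro w hw
  obtain ⟨h1, h2⟩ := h hw
  rw [mem_bot]
  apply Subtype.ext
  ext1
  · exact h1
  · exact h2.2 (by norm_num)

/-- The function `m` as an element of the witness group. -/
def io (m : Fn) (hm : m ∈ Md) : QG := ⟨⟨m, 1⟩, hm⟩

/-- The element `h` of the Heisenberg group as an element of the witness group. -/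
def et (h : Heis) : QG := ⟨⟨0, h⟩, zero_mem Md⟩

theorem dl_mem_Md (h : Heis) {m : Fn} (hm : m ∈ Md) : dl h m ∈ Md :=
  sub_mem (tr_mem_Md h hm) hm

theorem et_mul (g h : Heis) : et g * et h = et (g * h) := by
  apply Subtype.ext
  ext1
  · simp [et, tr_zero]
  · rfl

theorem et_inv (g : Heis) : (et g)⁻¹ = et g⁻¹ := by
  apply Subtype.ext
  ext1
  · simp [et, tr_zero]
  · rfl

theorem et_comm_io (h : Heis) (m : Fn) (hm : m ∈ Md) :
    ⁅et h, io m hm⁆ = io (dl h m) (dl_mem_Md h hm) := by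
  apply Subtype.ext
  ext1
  · change ((et h : QG) * (io m hm : QG) * ((et h : QG) : Wr)⁻¹ * ((io m hm : QG) : Wr)⁻¹ : Wr).m = _
    rw [comm_m]
    simp only [et, io, dl_eq, tr_zero]
    simp [tr_one]
  · change (h * 1 * h⁻¹ * 1⁻¹ : Heis) = 1
    group

theorem et_comm_et (g h : Heis) : ⁅et g, et h⁆ = et ⁅g, h⁆ := by
  simp only [commutatorElement_def, et_inv, et_mul]

end BurnLie
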